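import Mathlib

/-!
Three integral points of the curve `q w^2 = u^3 + A u v^2 + B v^3` (with `v`, `q` fixed) cannot be
close to each other.
-/

set_option autoImplicit false

namespace Pool.Agent.TH827.GE

lemma conv_real {a b q u1 u2 u3 w1 w2 w3 : ℝ} (hq : 1 ≤ q) (hw1 : 0 < w1) (hw2 : 0 < w2)
    (hw3 : 0 < w3) (h12 : u1 < u2) (h23 : u2 < u3)
    (e1 : q * w1 ^ 2 = u1 ^ 3 + a * u1 + b) (e2 : q * w2 ^ 2 = u2 ^ 3 + a * u2 + b)
    (e3 : q * w3 ^ 2 = u3 ^ 3 + a * u3 + b) (hu1 : 0 < u1) (ha : |a| ≤ u1 ^ 2 / 100)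
    (hb : |b| ≤ u1 ^ 3 / 100) (h3 : u3 ≤ 101 / 100 * u1)
    (hD : 0 < (u2 - u1) * (w3 - w1) - (u3 - u1) * (w2 - w1) →
      1 ≤ (u2 - u1) * (w3 - w1) - (u3 - u1) * (w2 - w1)) :
    q * u1 ≤ 3 * (u3 - u1) ^ 6 := by
  have hq0 : 0 < q := by linarith
  obtain ⟨ha1, ha2⟩ := abs_le.1 ha
  obtain ⟨hb1, hb2⟩ := abs_le.1 hb
  have hu1sq : 0 < u1 ^ 2 := by positivity
  have hu1c : 0 < u1 ^ 3 := by positivity
  -- values
  have hh1 : 98 / 100 * u1 ^ 3 ≤ q * w1 ^ 2 := by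
    rw [e1]
    have : -(u1 ^ 2 / 100) * u1 ≤ a * u1 := mul_le_mul_of_nonneg_right ha1 hu1.le
    have e : -(u1 ^ 2 / 100) * u1 = -(u1 ^ 3 / 100) := by ring
    linarith
  have f12 : 0 < u2 ^ 2 + u1 * u2 + u1 ^ 2 + a := by
    have : u1 ^ 2 ≤ u2 ^ 2 := pow_le_pow_left₀ hu1.le h12.le 2
    have : 0 < u1 * u2 := mul_pos hu1 (by linarith)
    linarith
  have f23 : 0 < u3 ^ 2 + u2 * u3 + u2 ^ 2 + a := by
    have : u1 ^ 2 ≤ u2 ^ 2 := pow_le_pow_left₀ hu1.le h12.le 2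
    have : u1 ^ 2 ≤ u3 ^ 2 := pow_le_pow_left₀ hu1.le (by linarith) 2
    have : 0 < u2 * u3 := mul_pos (by linarith) (by linarith)
    linarith
  have m12 : w1 < w2 := by
    have h : q * w1 ^ 2 < q * w2 ^ 2 := by
      have : q * w2 ^ 2 - q * w1 ^ 2 = (u2 - u1) * (u2 ^ 2 + u1 * u2 + u1 ^ 2 + a) := by
        rw [e1, e2]; ring
      have h2 : 0 < (u2 - u1) * (u2 ^ 2 + u1 * u2 + u1 ^ 2 + a) := mul_pos (by linarith) f12
      linarith
    have h' : w1 ^ 2 < w2 ^ 2 := lt_of_mul_lt_mul_left h hq0.le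
    exact lt_of_pow_lt_pow_left₀ 2 hw2.le h'
  have m23 : w2 < w3 := by
    have h : q * w2 ^ 2 < q * w3 ^ 2 := by
      have : q * w3 ^ 2 - q * w2 ^ 2 = (u3 - u2) * (u3 ^ 2 + u2 * u3 + u2 ^ 2 + a) := by
        rw [e3, e2]; ring
      have h2 : 0 < (u3 - u2) * (u3 ^ 2 + u2 * u3 + u2 ^ 2 + a) := mul_pos (by linarith) f23
      linarith
    have h' : w2 ^ 2 < w3 ^ 2 := lt_of_mul_lt_mul_left h hq0.le
    exact lt_of_pow_lt_pow_left₀ 2 hw3.le h'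
  -- the identity
  set D := (u2 - u1) * (w3 - w1) - (u3 - u1) * (w2 - w1) with hDdef
  set F12 := u2 ^ 2 + u1 * u2 + u1 ^ 2 + a with hF12
  set F23 := u3 ^ 2 + u2 * u3 + u2 ^ 2 + a with hF23
  have id : q ^ 2 * ((w1 + w3) * (w1 + w2) * (w2 + w3)) * D = (u2 - u1) * (u3 - u1) * (u3 - u2) *
      (q * (u1 + u2 + u3) * ((w1 + w2) * (w2 + w3)) - F12 * F23) := by
    have k12 : q * (w2 - w1) * (w2 + w1) = (u2 - u1) * F12 := by
      have : q * (w2 - w1) * (w2 + w1) = q * w2 ^ 2 - q * w1 ^ 2 := by ring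
      rw [this, e1, e2, hF12]; ring
    have k13 : q * (w3 - w1) * (w3 + w1) = (u3 - u1) * (u3 ^ 2 + u1 * u3 + u1 ^ 2 + a) := by
      have : q * (w3 - w1) * (w3 + w1) = q * w3 ^ 2 - q * w1 ^ 2 := by ring
      rw [this, e1, e3]; ring
    have k23 : q * (w3 - w2) * (w3 + w2) = (u3 - u2) * F23 := by
      have : q * (w3 - w2) * (w3 + w2) = q * w3 ^ 2 - q * w2 ^ 2 := by ring
      rw [this, e3, e2, hF23]; ring
    have s1 : q * ((w1 + w3) * (w1 + w2)) * D = (u2 - u1) * (u3 - u1) *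
        ((u3 - u2) * (u1 + u2 + u3) * (w1 + w2) - F12 * (w3 - w2)) := by
      rw [hDdef]
      linear_combination (u2 - u1) * (w1 + w2) * k13 - (u3 - u1) * (w1 + w3) * k12
    calc q ^ 2 * ((w1 + w3) * (w1 + w2) * (w2 + w3)) * D
        = q * (w2 + w3) * (q * ((w1 + w3) * (w1 + w2)) * D) := by ring
      _ = q * (w2 + w3) * ((u2 - u1) * (u3 - u1) *
        ((u3 - u2) * (u1 + u2 + u3) * (w1 + w2) - F12 * (w3 - w2))) := by rw [s1]
      _ = _ := by linear_combination (-(u2 - u1) * (u3 - u1) * F12) * k23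
  -- positivity
  have hprod : 4 * (q * w1 ^ 2) ≤ q * ((w1 + w2) * (w2 + w3)) := by
    have h1 : (2 * w1) * (2 * w1) ≤ (w1 + w2) * (w2 + w3) :=
      mul_le_mul (by linarith) (by linarith) (by positivity) (by positivity)
    have h2 := mul_le_mul_of_nonneg_left h1 hq0.le
    linarith
  have hmain1 : 1176 / 100 * u1 ^ 4 ≤ q * (u1 + u2 + u3) * ((w1 + w2) * (w2 + w3)) := by
    have h1 : 392 / 100 * u1 ^ 3 ≤ q * ((w1 + w2) * (w2 + w3)) := by linarith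
    have h2 : 3 * u1 ≤ u1 + u2 + u3 := by linarith
    have h3 : (3 * u1) * (392 / 100 * u1 ^ 3) ≤ (u1 + u2 + u3) * (q * ((w1 + w2) * (w2 + w3))) :=
      mul_le_mul h2 h1 (by positivity) (by linarith)
    have e : (3 * u1) * (392 / 100 * u1 ^ 3) = 1176 / 100 * u1 ^ 4 := by ring
    linarith
  have hF12u : F12 ≤ 308 / 100 * u1 ^ 2 := by
    have t1 : u2 ^ 2 ≤ (101 / 100 * u1) ^ 2 := pow_le_pow_left₀ (by linarith) (by linarith) 2
    have t2 : u1 * u2 ≤ u1 * (101 / 100 * u1) := mul_le_mul_of_nonneg_left (by linarith) hu1.le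
    rw [hF12]; nlinarith
  have hF23u : F23 ≤ 308 / 100 * u1 ^ 2 := by
    have t1 : u2 ^ 2 ≤ (101 / 100 * u1) ^ 2 := pow_le_pow_left₀ (by linarith) (by linarith) 2
    have t3 : u3 ^ 2 ≤ (101 / 100 * u1) ^ 2 := pow_le_pow_left₀ (by linarith) (by linarith) 2
    have t2 : u2 * u3 ≤ (101 / 100 * u1) * (101 / 100 * u1) :=
      mul_le_mul (by linarith) (by linarith) (by linarith) (by linarith)
    rw [hF23]; nlinarith
  have hmain2 : F12 * F23 ≤ 95 / 10 * u1 ^ 4 := by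
    have h1 : F12 * F23 ≤ (308 / 100 * u1 ^ 2) * (308 / 100 * u1 ^ 2) :=
      mul_le_mul hF12u hF23u f23.le (by positivity)
    have h2 : (308 / 100 * u1 ^ 2) * (308 / 100 * u1 ^ 2) = 94864 / 10000 * u1 ^ 4 := by ring
    have h4 : 0 < u1 ^ 4 := by positivity
    linarith
  have hpos : 0 < q * (u1 + u2 + u3) * ((w1 + w2) * (w2 + w3)) - F12 * F23 := by
    have h4 : 0 < u1 ^ 4 := by positivity
    linarith
  have hcoef : 0 < q ^ 2 * ((w1 + w3) * (w1 + w2) * (w2 + w3)) := by positivity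
  have hR : 0 < (u2 - u1) * (u3 - u1) * (u3 - u2) :=
    mul_pos (mul_pos (by linarith) (by linarith)) (by linarith)
  have hD0 : 0 < D := by
    have h1 : 0 < q ^ 2 * ((w1 + w3) * (w1 + w2) * (w2 + w3)) * D := by
      rw [id]; exact mul_pos hR hpos
    exact (mul_pos_iff_of_pos_left hcoef).1 h1
  have hD1 := hD hD0
  -- the upper bound
  set t := u3 - u1 with ht
  have ht0 : 0 < t := by linarith
  have hRt : (u2 - u1) * (u3 - u1) * (u3 - u2) ≤ t ^ 3 := by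
    have h1 : (u2 - u1) * (u3 - u1) ≤ t * t := mul_le_mul (by linarith) le_rfl ht0.le ht0.le
    have h2 : (u2 - u1) * (u3 - u1) * (u3 - u2) ≤ (t * t) * t :=
      mul_le_mul h1 (by linarith) (by linarith) (by positivity)
    calc _ ≤ (t * t) * t := h2
      _ = t ^ 3 := by ring
  have hup : q * (w1 + w3) ≤ t ^ 3 * (u1 + u2 + u3) := by
    have h1 : q ^ 2 * ((w1 + w3) * (w1 + w2) * (w2 + w3)) * 1 ≤
        q ^ 2 * ((w1 + w3) * (w1 + w2) * (w2 + w3)) * D := mul_le_mul_of_nonneg_left hD1 hcoef.le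
    rw [id] at h1
    have h2 : (u2 - u1) * (u3 - u1) * (u3 - u2) *
      (q * (u1 + u2 + u3) * ((w1 + w2) * (w2 + w3)) - F12 * F23) ≤
      t ^ 3 * (q * (u1 + u2 + u3) * ((w1 + w2) * (w2 + w3))) := by
      apply mul_le_mul hRt _ hpos.le (by positivity)
      have : 0 < F12 * F23 := mul_pos f12 f23
      linarith
    have h3 : (q * ((w1 + w2) * (w2 + w3))) * (q * (w1 + w3)) ≤
        (q * ((w1 + w2) * (w2 + w3))) * (t ^ 3 * (u1 + u2 + u3)) := by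
      have e5 : (q * ((w1 + w2) * (w2 + w3))) * (q * (w1 + w3)) =
        q ^ 2 * ((w1 + w3) * (w1 + w2) * (w2 + w3)) * 1 := by ring
      have e6 : (q * ((w1 + w2) * (w2 + w3))) * (t ^ 3 * (u1 + u2 + u3)) =
        t ^ 3 * (q * (u1 + u2 + u3) * ((w1 + w2) * (w2 + w3))) := by ring
      rw [e5, e6]
      exact h1.trans h2
    exact le_of_mul_le_mul_left h3 (by positivity)
  have hfin1 : 2 * (q * w1) ≤ 303 / 100 * u1 * t ^ 3 := by
    have h1 : q * (2 * w1) ≤ q * (w1 + w3) := mul_le_mul_of_nonneg_left (by linarith) hq0.le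
    have h2 : t ^ 3 * (u1 + u2 + u3) ≤ t ^ 3 * (303 / 100 * u1) :=
      mul_le_mul_of_nonneg_left (by linarith) (by positivity)
    calc 2 * (q * w1) = q * (2 * w1) := by ring
      _ ≤ t ^ 3 * (303 / 100 * u1) := h1.trans (hup.trans h2)
      _ = _ := by ring
  have hfin2 : 4 * (q * w1) ^ 2 ≤ 9181 / 1000 * u1 ^ 2 * t ^ 6 := by
    have h1 := pow_le_pow_left₀ (by positivity) hfin1 2
    have h2 : (303 / 100 * u1 * t ^ 3) ^ 2 = 91809 / 10000 * (u1 ^ 2 * t ^ 6) := by ring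
    have h3 : (2 * (q * w1)) ^ 2 = 4 * (q * w1) ^ 2 := by ring
    have h4 : 0 < u1 ^ 2 * t ^ 6 := by positivity
    rw [h2, h3] at h1
    nlinarith
  have hfin3 : q * (98 / 100 * u1 ^ 3) ≤ (q * w1) ^ 2 := by
    have h1 : q * (98 / 100 * u1 ^ 3) ≤ q * (q * w1 ^ 2) := mul_le_mul_of_nonneg_left hh1 hq0.le
    have h2 : (q * w1) ^ 2 = q * (q * w1 ^ 2) := by ring
    linarith
  have hfin4 : u1 ^ 2 * (392 / 100 * (q * u1)) ≤ u1 ^ 2 * (9181 / 1000 * t ^ 6) := by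
    calc u1 ^ 2 * (392 / 100 * (q * u1)) = 4 * (q * (98 / 100 * u1 ^ 3)) := by ring
      _ ≤ 4 * (q * w1) ^ 2 := by linarith
      _ ≤ _ := hfin2
      _ = _ := by ring
  have hfin5 := le_of_mul_le_mul_left hfin4 hu1sq
  have : 0 < t ^ 6 := by positivity
  linarith

/-- the integral version. -/
lemma conv {A B v q u1 u2 u3 w1 w2 w3 : ℤ} (hq : 0 < q) (hw1 : 0 < w1) (hw2 : 0 < w2)
    (hw3 : 0 < w3) (h12 : u1 < u2) (h23 : u2 < u3)
    (e1 : q * w1 ^ 2 = u1 ^ 3 + A * u1 * v ^ 2 + B * v ^ 3)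
    (e2 : q * w2 ^ 2 = u2 ^ 3 + A * u2 * v ^ 2 + B * v ^ 3)
    (e3 : q * w3 ^ 2 = u3 ^ 3 + A * u3 * v ^ 2 + B * v ^ 3) (hu1 : 0 < u1)
    (ha : 100 * |A * v ^ 2| ≤ u1 ^ 2) (hb : 100 * |B * v ^ 3| ≤ u1 ^ 3)
    (h3 : 100 * u3 ≤ 101 * u1) : q * u1 ≤ 3 * (u3 - u1) ^ 6 := by
  have key := conv_real (a := (A : ℝ) * v ^ 2) (b := (B : ℝ) * v ^ 3) (q := q) (u1 := u1) (u2 := u2)
    (u3 := u3) (w1 := w1) (w2 := w2) (w3 := w3) (by exact_mod_cast hq) (by exact_mod_cast hw1)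
    (by exact_mod_cast hw2) (by exact_mod_cast hw3) (by exact_mod_cast h12) (by exact_mod_cast h23)
    (by have : ((q * w1 ^ 2 : ℤ) : ℝ) = ((u1 ^ 3 + A * u1 * v ^ 2 + B * v ^ 3 : ℤ) : ℝ) := by rw [e1]
        push_cast at this; linarith)
    (by have : ((q * w2 ^ 2 : ℤ) : ℝ) = ((u2 ^ 3 + A * u2 * v ^ 2 + B * v ^ 3 : ℤ) : ℝ) := by rw [e2]
        push_cast at this; linarith)
    (by have : ((q * w3 ^ 2 : ℤ) : ℝ) = ((u3 ^ 3 + A * u3 * v ^ 2 + B * v ^ 3 : ℤ) : ℝ) := by rw [e3]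
        push_cast at this; linarith)
    (by exact_mod_cast hu1)
    (by have : ((100 * |A * v ^ 2| : ℤ) : ℝ) ≤ ((u1 ^ 2 : ℤ) : ℝ) := by exact_mod_cast ha
        push_cast at this; linarith)
    (by have : ((100 * |B * v ^ 3| : ℤ) : ℝ) ≤ ((u1 ^ 3 : ℤ) : ℝ) := by exact_mod_cast hb
        push_cast at this; linarith)
    (by have : ((100 * u3 : ℤ) : ℝ) ≤ ((101 * u1 : ℤ) : ℝ) := by exact_mod_cast h3
        push_cast at this; linarith)
    (by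
      intro h
      have h' : (0 : ℤ) < (u2 - u1) * (w3 - w1) - (u3 - u1) * (w2 - w1) := by exact_mod_cast h
      have h'' : (1 : ℤ) ≤ (u2 - u1) * (w3 - w1) - (u3 - u1) * (w2 - w1) := h'
      exact_mod_cast h'')
  exact_mod_cast key

end Pool.Agent.TH827.GE
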