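import Mathlib
import Pool.Agent.TH562.TW.Count
import Pool.Agent.TH562.R2.Sv

/-!
Points of a box that are far from each other, and the pairs `(s, v)` whose cubic form is divisible
by the square of a prime.
-/

set_option autoImplicit false

namespace Pool.Agent.TH827.GE

open Finset Pool.Agent.TH562.TW Pool.Agent.TH562.R2

/-- the box -/
def Bx (i0 l0 I T : ℕ) : Finset (ℕ × ℕ) := Finset.Ico i0 (i0 + I) ×ˢ Finset.Ico l0 (l0 + T)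

lemma mem_Bx {i0 l0 I T : ℕ} {x : ℕ × ℕ} :
    x ∈ Bx i0 l0 I T ↔ (i0 ≤ x.1 ∧ x.1 < i0 + I) ∧ (l0 ≤ x.2 ∧ x.2 < l0 + T) := by
  unfold Bx
  rw [Finset.mem_product, Finset.mem_Ico, Finset.mem_Ico]

lemma card_Bx (i0 l0 I T : ℕ) : (Bx i0 l0 I T).card = I * T := by
  unfold Bx
  rw [Finset.card_product, Nat.card_Ico, Nat.card_Ico]
  simp

lemma floor_near {x y c Δ : ℝ} (hΔ : 0 < Δ) (hx : c ≤ x) (hy : c ≤ y)
    (h : ⌊(x - c) / Δ⌋₊ = ⌊(y - c) / Δ⌋₊) : |x - y| < Δ := by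
  have a1 := Nat.floor_le (div_nonneg (sub_nonneg.2 hx) hΔ.le)
  have a2 := Nat.lt_floor_add_one ((x - c) / Δ)
  have b1 := Nat.floor_le (div_nonneg (sub_nonneg.2 hy) hΔ.le)
  have b2 := Nat.lt_floor_add_one ((y - c) / Δ)
  rw [h] at a1 a2
  have h3 : |(x - c) / Δ - (y - c) / Δ| < 1 := by
    rw [abs_lt]
    constructor <;> linarith
  have h4 : (x - c) / Δ - (y - c) / Δ = (x - y) / Δ := by ring
  rw [h4, abs_div, abs_of_pos hΔ, div_lt_one hΔ] at h3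
  exact h3

lemma sep_card {i0 l0 I T : ℕ} {F : Finset (ℕ × ℕ)} (hF : F ⊆ Bx i0 l0 I T) {Δ : ℝ} (hΔ : 0 < Δ)
    (h : ∀ x ∈ F, ∀ y ∈ F, x ≠ y → Δ ≤ |(x.1 : ℝ) - y.1| ∨ Δ ≤ |(x.2 : ℝ) - y.2|) :
    (F.card : ℝ) ≤ (I / Δ + 1) * (T / Δ + 1) := by
  classical
  have h1 : F.card ≤ (range (⌊(I : ℝ) / Δ⌋₊ + 1) ×ˢ range (⌊(T : ℝ) / Δ⌋₊ + 1)).card := by
    apply Finset.card_le_card_of_injOn
      (fun x => (⌊((x.1 : ℝ) - i0) / Δ⌋₊, ⌊((x.2 : ℝ) - l0) / Δ⌋₊))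
    · intro x hx
      obtain ⟨⟨g1, g2⟩, g3, g4⟩ := mem_Bx.1 (hF hx)
      have g2' : (x.1 : ℝ) ≤ i0 + I := by exact_mod_cast g2.le
      have g4' : (x.2 : ℝ) ≤ l0 + T := by exact_mod_cast g4.le
      refine Finset.mem_coe.2 (Finset.mem_product.2 ⟨Finset.mem_range.2 (Nat.lt_succ_of_le ?_),
        Finset.mem_range.2 (Nat.lt_succ_of_le ?_)⟩)
      · apply Nat.floor_le_floor
        apply div_le_div_of_nonneg_right _ hΔ.le
        linarith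
      · apply Nat.floor_le_floor
        apply div_le_div_of_nonneg_right _ hΔ.le
        linarith
    · intro x hx y hy hxy
      by_contra hne
      obtain ⟨⟨g1, g2⟩, g3, g4⟩ := mem_Bx.1 (hF hx)
      obtain ⟨⟨k1, k2⟩, k3, k4⟩ := mem_Bx.1 (hF hy)
      simp only [Prod.mk.injEq] at hxy
      have m1 := floor_near (c := i0) hΔ (by exact_mod_cast g1) (by exact_mod_cast k1) hxy.1
      have m2 := floor_near (c := l0) hΔ (by exact_mod_cast g3) (by exact_mod_cast k3) hxy.2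
      rcases h x hx y hy hne with h5 | h5
      · exact absurd h5 (not_le.2 m1)
      · exact absurd h5 (not_le.2 m2)
  rw [Finset.card_product, Finset.card_range, Finset.card_range] at h1
  have h2 : (F.card : ℝ) ≤ ((⌊(I : ℝ) / Δ⌋₊ : ℝ) + 1) * ((⌊(T : ℝ) / Δ⌋₊ : ℝ) + 1) := by
    exact_mod_cast h1
  have h3 := Nat.floor_le (div_nonneg (Nat.cast_nonneg I) hΔ.le)
  have h4 := Nat.floor_le (div_nonneg (Nat.cast_nonneg T) hΔ.le)
  refine h2.trans (mul_le_mul (by linarith) (by linarith) (by positivity) (by positivity))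

/-- the cubic form at integers -/
def gI (A B : ℤ) (m : ℕ) (a b : ℤ) : ℤ :=
  (a - m * b) ^ 3 + A * (a - m * b) * b ^ 2 + B * b ^ 3

lemma GZ_eq (A B : ℤ) (m s v : ℕ) : GZ A B m s v = gI A B m s v := rfl

lemma gI_ne {A B : ℤ} (hroot : ∀ r : ℚ, r ^ 3 + A * r + B ≠ 0) (m : ℕ) {a b : ℤ}
    (h : a ≠ 0 ∨ b ≠ 0) : gI A B m a b ≠ 0 := by
  intro h0
  by_cases hb : b = 0
  · have ha : a ≠ 0 := by
      rcases h with h | h
      · exact h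
      · exact absurd hb h
    unfold gI at h0
    rw [hb] at h0
    have : a ^ 3 = 0 := by linarith
    exact ha (pow_eq_zero_iff (by norm_num) |>.1 this)
  · have hb' : (b : ℚ) ≠ 0 := by exact_mod_cast hb
    apply hroot (((a : ℚ) - m * b) / b)
    have h1 : ((gI A B m a b : ℤ) : ℚ) = 0 := by rw [h0]; norm_num
    unfold gI at h1
    push_cast at h1
    field_simp
    linear_combination h1

/-- the constant of the cubic form -/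
def Cg (A B : ℤ) (m : ℕ) : ℝ := (1 + m) ^ 3 + |(A : ℝ)| * (1 + m) + |(B : ℝ)|

lemma Cg_pos (A B : ℤ) (m : ℕ) : 0 < Cg A B m := by
  unfold Cg
  positivity

lemma gI_le (A B : ℤ) (m : ℕ) {a b : ℤ} {M : ℝ} (ha : |(a : ℝ)| ≤ M) (hb : |(b : ℝ)| ≤ M) :
    |((gI A B m a b : ℤ) : ℝ)| ≤ Cg A B m * M ^ 3 := by
  have hM : 0 ≤ M := (abs_nonneg _).trans ha
  have h1 : |(a : ℝ) - m * b| ≤ (1 + m) * M := by
    have h2 : |(a : ℝ) - m * b| ≤ |(a : ℝ)| + |(m : ℝ) * b| := abs_sub _ _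
    rw [abs_mul, Nat.abs_cast] at h2
    have h3 : (m : ℝ) * |(b : ℝ)| ≤ m * M := mul_le_mul_of_nonneg_left hb (Nat.cast_nonneg _)
    linarith
  unfold gI Cg
  push_cast
  have t1 : |((a : ℝ) - m * b) ^ 3| ≤ (1 + m) ^ 3 * M ^ 3 := by
    rw [abs_pow, ← mul_pow]
    exact pow_le_pow_left₀ (abs_nonneg _) h1 3
  have t2 : |(A : ℝ) * ((a : ℝ) - m * b) * (b : ℝ) ^ 2| ≤ |(A : ℝ)| * (1 + m) * M ^ 3 := by
    rw [abs_mul, abs_mul, abs_pow]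
    have : |(A : ℝ)| * |(a : ℝ) - m * b| * |(b : ℝ)| ^ 2 ≤ |(A : ℝ)| * ((1 + m) * M) * M ^ 2 :=
      mul_le_mul (mul_le_mul_of_nonneg_left h1 (abs_nonneg _))
        (pow_le_pow_left₀ (abs_nonneg _) hb 2) (by positivity) (by positivity)
    linarith
  have t3 : |(B : ℝ) * (b : ℝ) ^ 3| ≤ |(B : ℝ)| * M ^ 3 := by
    rw [abs_mul, abs_pow]
    exact mul_le_mul_of_nonneg_left (pow_le_pow_left₀ (abs_nonneg _) hb 3) (abs_nonneg _)
  have t4 := abs_add_le (((a : ℝ) - m * b) ^ 3 + (A : ℝ) * ((a : ℝ) - m * b) * (b : ℝ) ^ 2)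
    ((B : ℝ) * (b : ℝ) ^ 3)
  have t5 := abs_add_le (((a : ℝ) - m * b) ^ 3) ((A : ℝ) * ((a : ℝ) - m * b) * (b : ℝ) ^ 2)
  linarith

lemma dvd_gI {A B : ℤ} {m p : ℕ} (hp : p.Prime) {s v a b : ℤ} (hv : ¬ (p : ℤ) ∣ v)
    (h : ((p ^ 2 : ℕ) : ℤ) ∣ gI A B m s v) (hc : ((p ^ 2 : ℕ) : ℤ) ∣ s * b - a * v) :
    ((p ^ 2 : ℕ) : ℤ) ∣ gI A B m a b := by
  have hpZ : Prime (p : ℤ) := Nat.prime_iff_prime_int.1 hp
  have e : v ^ 3 * gI A B m a b = b ^ 3 * gI A B m s v - (s * b - a * v) *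
      ((a * v - m * b * v) ^ 2 + (a * v - m * b * v) * (b * s - m * b * v) +
        (b * s - m * b * v) ^ 2 + A * (b * v) ^ 2) := by
    unfold gI
    ring
  have h1 : ((p ^ 2 : ℕ) : ℤ) ∣ v ^ 3 * gI A B m a b := by
    rw [e]
    exact dvd_sub (Dvd.dvd.mul_left h _) (Dvd.dvd.mul_right hc _)
  have hcop : IsCoprime ((p ^ 2 : ℕ) : ℤ) (v ^ 3) := by
    push_cast
    exact ((Prime.coprime_iff_not_dvd hpZ).2 hv).pow
  exact hcop.dvd_of_dvd_mul_left h1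

/-- one prime of the middle range -/
lemma mid_card {A B : ℤ} {m Q a : ℕ} (hroot : ∀ r : ℚ, r ^ 3 + A * r + B ≠ 0) (hQ : 0 < Q)
    {p : ℕ} (hp : p.Prime) (hdisc : ¬ (p : ℤ) ∣ 4 * A ^ 3 + 27 * B ^ 2) {i0 l0 I T : ℕ}
    {F : Finset (ℕ × ℕ)} (hF : F ⊆ Bx i0 l0 I T)
    (hG : ∀ x ∈ F, ((p ^ 2 : ℕ) : ℤ) ∣ GZ A B m (1 + Q * x.1) (a + Q * x.2) ∧
      ¬ p ∣ a + Q * x.2) {Δ : ℝ} (hΔ : 0 < Δ) (hpΔ : Cg A B m * (Q * Δ) ^ 3 < (p : ℝ) ^ 2) :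
    (F.card : ℝ) ≤ 3 * ((I / Δ + 1) * (T / Δ + 1)) := by
  refine card_color hp hdisc F (fun x => 1 + Q * x.1) (fun x => a + Q * x.2) hG _ ?_
  intro T' hT' hcl
  refine sep_card (hT'.trans hF) hΔ ?_
  intro x hx y hy hne
  by_contra hcon
  push Not at hcon
  obtain ⟨c1, c2⟩ := hcon
  have hc := hcl x hx y hy
  obtain ⟨hg, hv⟩ := hG x (hT' hx)
  have hQ' : (0 : ℝ) < Q := by exact_mod_cast hQ
  have hvZ : ¬ (p : ℤ) ∣ ((a + Q * x.2 : ℕ) : ℤ) := fun hh => hv (Int.natCast_dvd_natCast.1 hh)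
  have hd := dvd_gI (A := A) (B := B) (m := m) hp
    (s := ((1 + Q * x.1 : ℕ) : ℤ)) (v := ((a + Q * x.2 : ℕ) : ℤ))
    (a := (Q : ℤ) * ((y.1 : ℤ) - x.1)) (b := (Q : ℤ) * ((y.2 : ℤ) - x.2)) hvZ
    (by rw [← GZ_eq]; exact hg)
    (by
      have e : ((1 + Q * x.1 : ℕ) : ℤ) * ((Q : ℤ) * ((y.2 : ℤ) - x.2)) -
          (Q : ℤ) * ((y.1 : ℤ) - x.1) * ((a + Q * x.2 : ℕ) : ℤ) =
          ((1 + Q * x.1 : ℕ) : ℤ) * ((a + Q * y.2 : ℕ) : ℤ) -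
            ((1 + Q * y.1 : ℕ) : ℤ) * ((a + Q * x.2 : ℕ) : ℤ) := by
        push_cast; ring
      rw [e]; exact hc)
  have hne0 : gI A B m ((Q : ℤ) * ((y.1 : ℤ) - x.1)) ((Q : ℤ) * ((y.2 : ℤ) - x.2)) ≠ 0 := by
    apply gI_ne hroot
    by_contra h0
    push Not at h0
    obtain ⟨z1, z2⟩ := h0
    have hQZ : (Q : ℤ) ≠ 0 := by exact_mod_cast hQ.ne'
    have w1 : (y.1 : ℤ) - x.1 = 0 := by
      rcases mul_eq_zero.1 z1 with h | h
      · exact absurd h hQZ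
      · exact h
    have w2 : (y.2 : ℤ) - x.2 = 0 := by
      rcases mul_eq_zero.1 z2 with h | h
      · exact absurd h hQZ
      · exact h
    apply hne
    apply Prod.ext
    · omega
    · omega
  have h1 : ((p ^ 2 : ℕ) : ℤ) ≤
      |gI A B m ((Q : ℤ) * ((y.1 : ℤ) - x.1)) ((Q : ℤ) * ((y.2 : ℤ) - x.2))| := by
    apply Int.le_of_dvd (abs_pos.2 hne0)
    rwa [dvd_abs]
  have h2 : (((p ^ 2 : ℕ) : ℤ) : ℝ) ≤
      ((|gI A B m ((Q : ℤ) * ((y.1 : ℤ) - x.1)) ((Q : ℤ) * ((y.2 : ℤ) - x.2))| : ℤ) : ℝ) := by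
    exact_mod_cast h1
  rw [Int.cast_abs] at h2
  have h3 := gI_le A B m (a := (Q : ℤ) * ((y.1 : ℤ) - x.1)) (b := (Q : ℤ) * ((y.2 : ℤ) - x.2))
    (M := Q * Δ) (by
      push_cast
      rw [abs_mul, Nat.abs_cast, abs_sub_comm]
      exact mul_le_mul_of_nonneg_left c1.le hQ'.le) (by
      push_cast
      rw [abs_mul, Nat.abs_cast, abs_sub_comm]
      exact mul_le_mul_of_nonneg_left c2.le hQ'.le)
  push_cast at h2
  push_cast at h3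
  linarith

end Pool.Agent.TH827.GE
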