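import Mathlib
import Pool.Agent.TH827.GE.Sep

/-!
Counting pairs `(s, v)` in a curved strip: `v = a + Q l`, `s = 1 + Q (f l + j)` with `j < I` and a
non-increasing function `f`.
-/

set_option autoImplicit false

namespace Pool.Agent.TH827.GE

open Finset Pool.Agent.TH562.TW Pool.Agent.TH562.R2

/-- the first coordinate -/
def sx (Q : ℕ) (f : ℕ → ℕ) (x : ℕ × ℕ) : ℕ := 1 + Q * (f x.2 + x.1)

/-- the second coordinate -/
def vx (Q a : ℕ) (x : ℕ × ℕ) : ℕ := a + Q * x.2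

lemma progS {d Q : ℕ} (hd : 0 < d) (hcop : IsCoprime (d : ℤ) (Q : ℤ)) (c i0 I : ℕ) :
    (((Finset.Ico i0 (i0 + I)).filter (fun i => d ∣ c + Q * i)).card : ℝ) ≤ I / d + 1 := by
  have hd' : (0 : ℝ) < d := by exact_mod_cast hd
  apply card_spaced _ (fun i : ℕ => (i : ℝ)) (a := i0) hd' (Nat.cast_nonneg I)
  · intro i hi
    obtain ⟨g1, g2⟩ := Finset.mem_Ico.1 (Finset.mem_filter.1 hi).1
    refine ⟨by exact_mod_cast g1, by exact_mod_cast g2.le⟩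
  · intro i hi k hk hne
    obtain ⟨_, g1⟩ := Finset.mem_filter.1 hi
    obtain ⟨_, g2⟩ := Finset.mem_filter.1 hk
    apply gap_of_dvd hne
    have g3 : (d : ℤ) ∣ (Q : ℤ) * ((i : ℤ) - k) := by
      have : (Q : ℤ) * ((i : ℤ) - k) = ((c + Q * i : ℕ) : ℤ) - ((c + Q * k : ℕ) : ℤ) := by
        push_cast; ring
      rw [this]
      exact dvd_sub (Int.natCast_dvd_natCast.2 g1) (Int.natCast_dvd_natCast.2 g2)
    exact hcop.dvd_of_dvd_mul_left g3

lemma cop_pS {p Q : ℕ} (hp : p.Prime) (hpQ : ¬ p ∣ Q) (k : ℕ) :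
    IsCoprime ((p ^ k : ℕ) : ℤ) (Q : ℤ) := by
  rw [Nat.isCoprime_iff_coprime]
  exact Nat.Coprime.pow_left k ((Nat.Prime.coprime_iff_not_dvd hp).2 hpQ)

/-- a column -/
lemma col_le {l0 I T l : ℕ} {S : Finset (ℕ × ℕ)} (hS : S ⊆ Bx 0 l0 I T) (P : ℕ → Prop)
    [DecidablePred P] (h : ∀ x ∈ S, x.2 = l → P x.1) :
    (S.filter fun x => x.2 = l).card ≤ ((Finset.Ico 0 (0 + I)).filter P).card := by
  apply Finset.card_le_card_of_injOn (fun x => x.1)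
  · intro x hx
    obtain ⟨h1, h2⟩ := Finset.mem_filter.1 hx
    exact Finset.mem_coe.2 (Finset.mem_filter.2 ⟨Finset.mem_Ico.2 (mem_Bx.1 (hS h1)).1, h x h1 h2⟩)
  · intro x hx y hy hxy
    have hx2 := (Finset.mem_filter.1 (Finset.mem_coe.1 hx)).2
    have hy2 := (Finset.mem_filter.1 (Finset.mem_coe.1 hy)).2
    exact Prod.ext hxy (hx2.trans hy2.symm)

/-- pairs with a common prime -/
lemma d1 {Q a l0 I T p : ℕ} (f : ℕ → ℕ) (hp : p.Prime) (hpQ : ¬ p ∣ Q) :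
    (((Bx 0 l0 I T).filter (fun x => p ∣ sx Q f x ∧ p ∣ vx Q a x)).card : ℝ) ≤
      (I / p + 1) * (T / p + 1) := by
  classical
  have hp' : (0 : ℝ) < p := by exact_mod_cast hp.pos
  have hc := cop_pS hp hpQ 1
  rw [pow_one] at hc
  have h1 := cols_le (T := (Bx 0 l0 I T).filter (fun x => p ∣ sx Q f x ∧ p ∣ vx Q a x))
    (F := (Finset.Ico l0 (l0 + T)).filter (fun j => p ∣ a + Q * j)) (b := I / p + 1) ?_
    (by positivity) ?_
  · have h2 := progS hp.pos hc a l0 T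
    calc _ ≤ _ := h1
      _ ≤ ((T : ℝ) / p + 1) * (I / p + 1) := mul_le_mul_of_nonneg_right h2 (by positivity)
      _ = _ := by ring
  · intro x hx
    obtain ⟨g1, g2, g3⟩ := Finset.mem_filter.1 hx
    exact Finset.mem_filter.2 ⟨Finset.mem_Ico.2 (mem_Bx.1 g1).2, g3⟩
  · intro l _
    have h2 := col_le (l := l) (S := (Bx 0 l0 I T).filter (fun x => p ∣ sx Q f x ∧ p ∣ vx Q a x))
      (Finset.filter_subset _ _) (fun j => p ∣ (1 + Q * f l) + Q * j) (by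
        intro x hx hxl
        have := (Finset.mem_filter.1 hx).2.1
        unfold sx at this
        rw [hxl] at this
        have e : (1 + Q * f l) + Q * x.1 = 1 + Q * (f l + x.1) := by ring
        rw [e]; exact this)
    exact (by exact_mod_cast h2 : (_ : ℝ) ≤ _).trans (progS hp.pos hc (1 + Q * f l) 0 I)

/-- pairs with `p ^ 2 ∣ v` -/
lemma d2 {Q a l0 I T p : ℕ} (hp : p.Prime) (hpQ : ¬ p ∣ Q) :
    (((Bx 0 l0 I T).filter (fun x => p ^ 2 ∣ vx Q a x)).card : ℝ) ≤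
      I * (T / (p : ℝ) ^ 2 + 1) := by
  classical
  have hp' : (0 : ℝ) < p := by exact_mod_cast hp.pos
  have hsub : (Bx 0 l0 I T).filter (fun x => p ^ 2 ∣ vx Q a x) ⊆
      (Finset.Ico 0 (0 + I)) ×ˢ
      ((Finset.Ico l0 (l0 + T)).filter (fun j => p ^ 2 ∣ a + Q * j)) := by
    intro x hx
    obtain ⟨h1, h3⟩ := Finset.mem_filter.1 hx
    obtain ⟨h4, h5⟩ := mem_Bx.1 h1
    rw [Finset.mem_product, Finset.mem_filter, Finset.mem_Ico, Finset.mem_Ico]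
    exact ⟨h4, ⟨h5, h3⟩⟩
  have h1 := Finset.card_le_card hsub
  rw [Finset.card_product, Nat.card_Ico] at h1
  have h3 := progS (pow_pos hp.pos 2) (cop_pS hp hpQ 2) a l0 T
  push_cast at h3
  have h4 : (((Bx 0 l0 I T).filter (fun x => p ^ 2 ∣ vx Q a x)).card : ℝ) ≤
      (I : ℝ) * (((Finset.Ico l0 (l0 + T)).filter (fun j => p ^ 2 ∣ a + Q * j)).card : ℝ) := by
    have : 0 + I - 0 = I := by omega
    rw [this] at h1
    exact_mod_cast h1
  exact h4.trans (mul_le_mul_of_nonneg_left h3 (Nat.cast_nonneg _))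

/-- pairs with `p ^ 2 ∣ G`, small `p` -/
lemma d3 {A B : ℤ} {Q a l0 I T p : ℕ} (f : ℕ → ℕ) (hp : p.Prime) (hpQ : ¬ p ∣ Q)
    (hdisc : ¬ (p : ℤ) ∣ 4 * A ^ 3 + 27 * B ^ 2) :
    (((Bx 0 l0 I T).filter (fun x => ((p ^ 2 : ℕ) : ℤ) ∣ GZ A B 0 (sx Q f x) (vx Q a x) ∧
      ¬ p ∣ vx Q a x)).card : ℝ) ≤ T * (3 * (I / (p : ℝ) ^ 2 + 1)) := by
  classical
  have hp' : (0 : ℝ) < p := by exact_mod_cast hp.pos
  have hpZ : Prime (p : ℤ) := Nat.prime_iff_prime_int.1 hp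
  have h1 := cols_le (T := (Bx 0 l0 I T).filter
    (fun x => ((p ^ 2 : ℕ) : ℤ) ∣ GZ A B 0 (sx Q f x) (vx Q a x) ∧ ¬ p ∣ vx Q a x))
    (F := Finset.Ico l0 (l0 + T)) (b := 3 * (I / (p : ℝ) ^ 2 + 1)) ?_ (by positivity) ?_
  · rw [Nat.card_Ico] at h1
    have e : l0 + T - l0 = T := by omega
    rw [e] at h1
    exact h1
  · intro x hx
    exact Finset.mem_Ico.2 (mem_Bx.1 (Finset.mem_filter.1 hx).1).2
  · intro l _
    refine card_color (m := 0) hp hdisc _ (sx Q f) (vx Q a) ?_ _ ?_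
    · intro x hx
      exact (Finset.mem_filter.1 (Finset.mem_filter.1 hx).1).2
    · intro T' hT' hcl
      have hd2 : (0 : ℝ) < (p : ℝ) ^ 2 := by positivity
      refine card_spaced T' (fun x => (x.1 : ℝ)) (a := 0) (L := I) hd2 (Nat.cast_nonneg I) ?_ ?_
      · intro x hx
        obtain ⟨⟨g1, g2⟩, _⟩ := mem_Bx.1 (Finset.mem_filter.1 (Finset.mem_filter.1 (hT' hx)).1).1
        rw [zero_add] at g2
        exact ⟨Nat.cast_nonneg _, by rw [zero_add]; exact_mod_cast g2.le⟩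
      · intro x hx y hy hne
        obtain ⟨hx1, hx2⟩ := Finset.mem_filter.1 (hT' hx)
        obtain ⟨hy1, hy2⟩ := Finset.mem_filter.1 (hT' hy)
        have hvx := (Finset.mem_filter.1 hx1).2.2
        have hc := hcl x hx y hy
        unfold sx vx at hc
        unfold vx at hvx
        rw [hx2, hy2] at hc
        rw [hx2] at hvx
        have hvZ : ¬ (p : ℤ) ∣ ((a + Q * l : ℕ) : ℤ) :=
          fun hh => hvx (Int.natCast_dvd_natCast.1 hh)
        have hcopv : IsCoprime ((p ^ 2 : ℕ) : ℤ) ((a + Q * l : ℕ) : ℤ) := by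
          push_cast
          have := ((Prime.coprime_iff_not_dvd hpZ).2 hvZ).pow_left (m := 2)
          push_cast at this
          exact this
        have h3 : ((p ^ 2 : ℕ) : ℤ) ∣ ((a + Q * l : ℕ) : ℤ) * ((Q : ℤ) * ((x.1 : ℤ) - y.1)) := by
          have e : ((a + Q * l : ℕ) : ℤ) * ((Q : ℤ) * ((x.1 : ℤ) - y.1)) =
            ((1 + Q * (f l + x.1) : ℕ) : ℤ) * ((a + Q * l : ℕ) : ℤ) -
              ((1 + Q * (f l + y.1) : ℕ) : ℤ) * ((a + Q * l : ℕ) : ℤ) := by push_cast; ring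
          rw [e]; exact hc
        have h4 := (cop_pS hp hpQ 2).dvd_of_dvd_mul_left (hcopv.dvd_of_dvd_mul_left h3)
        have h5 := gap_of_dvd (fun h => hne (Prod.ext h (hx2.trans hy2.symm))) h4
        push_cast at h5
        exact h5

/-- points of the strip that are far from each other -/
lemma strip_card {f : ℕ → ℕ} {l0 I T S : ℕ}
    (hf : ∀ l l' : ℕ, l0 ≤ l → l ≤ l' → l' < l0 + T → f l' ≤ f l)
    (hS : ∀ l, l0 ≤ l → l < l0 + T → f l ≤ S) {F : Finset (ℕ × ℕ)} (hF : F ⊆ Bx 0 l0 I T)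
    {Δ : ℝ} (hΔ : 0 < Δ)
    (h : ∀ x ∈ F, ∀ y ∈ F, x ≠ y → Δ ≤ |((f x.2 + x.1 : ℕ) : ℝ) - ((f y.2 + y.1 : ℕ) : ℝ)| ∨
      Δ ≤ |(x.2 : ℝ) - y.2|) :
    (F.card : ℝ) ≤ (4 * (T + S + I) / Δ + 1) * (2 * I / Δ + 2) := by
  classical
  set z : ℕ × ℕ → ℝ := fun x => ((x.2 : ℝ) - l0) + (S + I - ((f x.2 + x.1 : ℕ) : ℝ)) with hz
  have hz0 : ∀ x ∈ F, 0 ≤ z x ∧ z x ≤ T + S + I := by
    intro x hx
    obtain ⟨⟨g1, g2⟩, g3, g4⟩ := mem_Bx.1 (hF hx)
    have g5 := hS x.2 g3 g4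
    have g2' : (x.1 : ℝ) ≤ I := by
      have : x.1 ≤ I := by omega
      exact_mod_cast this
    have g3' : (l0 : ℝ) ≤ x.2 := by exact_mod_cast g3
    have g4' : (x.2 : ℝ) ≤ l0 + T := by exact_mod_cast g4.le
    have g5' : ((f x.2 : ℕ) : ℝ) ≤ S := by exact_mod_cast g5
    have g6 : (0 : ℝ) ≤ ((f x.2 + x.1 : ℕ) : ℝ) := Nat.cast_nonneg _
    have g7 : ((f x.2 + x.1 : ℕ) : ℝ) = (f x.2 : ℝ) + x.1 := by push_cast; ring
    rw [hz]
    simp only
    constructor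
    · rw [g7]; linarith
    · linarith
  have hΔ4 : 0 < Δ / 4 := by positivity
  set k : ℕ × ℕ → ℕ := fun x => ⌊(z x - 0) / (Δ / 4)⌋₊ with hk
  have himg : ((F.image k).card : ℝ) ≤ 4 * (T + S + I) / Δ + 1 := by
    have h1 : (F.image k).card ≤ (range (⌊((T : ℝ) + S + I) / (Δ / 4)⌋₊ + 1)).card := by
      apply Finset.card_le_card
      intro t ht
      obtain ⟨x, hx, rfl⟩ := Finset.mem_image.1 ht
      rw [Finset.mem_range]
      apply Nat.lt_succ_of_le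
      apply Nat.floor_le_floor
      apply div_le_div_of_nonneg_right _ hΔ4.le
      have := (hz0 x hx).2
      linarith
    rw [Finset.card_range] at h1
    have h2 : ((F.image k).card : ℝ) ≤ (⌊((T : ℝ) + S + I) / (Δ / 4)⌋₊ : ℝ) + 1 := by
      exact_mod_cast h1
    have h3 := Nat.floor_le (show (0 : ℝ) ≤ ((T : ℝ) + S + I) / (Δ / 4) by positivity)
    have h4 : ((T : ℝ) + S + I) / (Δ / 4) = 4 * (T + S + I) / Δ := by
      field_simp
    linarith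
  have hfib : ∀ t ∈ F.image k, ((F.filter fun x => k x = t).card : ℝ) ≤ 2 * I / Δ + 2 := by
    intro t ht
    set G := F.filter fun x => k x = t with hG
    have hGne : G.Nonempty := by
      obtain ⟨x, hx, hxt⟩ := Finset.mem_image.1 ht
      exact ⟨x, Finset.mem_filter.2 ⟨hx, hxt⟩⟩
    obtain ⟨x0, hx0, hmin⟩ := Finset.exists_min_image G (fun x => x.2) hGne
    have hclose : ∀ x ∈ G, ∀ y ∈ G, |z x - z y| < Δ / 4 := by
      intro x hx y hy
      obtain ⟨x1, x2⟩ := Finset.mem_filter.1 hx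
      obtain ⟨y1, y2⟩ := Finset.mem_filter.1 hy
      exact floor_near (c := 0) hΔ4 (hz0 x x1).1 (hz0 y y1).1 (x2.trans y2.symm)
    have hΔ2 : 0 < Δ / 2 := by positivity
    have hsp := card_spaced G (fun x => (x.2 : ℝ)) (a := x0.2) (L := I + Δ / 4) hΔ2
      (by positivity) ?_ ?_
    · have e : ((I : ℝ) + Δ / 4) / (Δ / 2) = 2 * I / Δ + 1 / 2 := by
        field_simp
        ring
      rw [e] at hsp
      linarith
    · intro x hx
      have hx1 := (Finset.mem_filter.1 hx).1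
      have hx01 := (Finset.mem_filter.1 hx0).1
      have hle := hmin x hx
      have hcl := hclose x hx x0 hx0
      obtain ⟨⟨g1, g2⟩, g3, g4⟩ := mem_Bx.1 (hF hx1)
      obtain ⟨⟨k1, k2⟩, k3, k4⟩ := mem_Bx.1 (hF hx01)
      have hff := hf x0.2 x.2 k3 hle g4
      have hi : ((f x.2 + x.1 : ℕ) : ℝ) ≤ ((f x0.2 + x0.1 : ℕ) : ℝ) + I := by
        have : f x.2 + x.1 ≤ f x0.2 + x0.1 + I := by omega
        exact_mod_cast this
      refine ⟨by exact_mod_cast hle, ?_⟩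
      rw [abs_lt] at hcl
      obtain ⟨_, c2⟩ := hcl
      rw [hz] at c2
      simp only at c2
      linarith
    · intro x hx y hy hne
      have hx1 := (Finset.mem_filter.1 hx).1
      have hy1 := (Finset.mem_filter.1 hy).1
      have hcl := hclose x hx y hy
      by_contra hcon
      push Not at hcon
      rcases h x hx1 y hy1 hne with h5 | h5
      · have e : ((f x.2 + x.1 : ℕ) : ℝ) - ((f y.2 + y.1 : ℕ) : ℝ) =
            ((x.2 : ℝ) - y.2) - (z x - z y) := by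
          rw [hz]; simp only; ring
        rw [e] at h5
        have h6 := abs_sub ((x.2 : ℝ) - y.2) (z x - z y)
        linarith
      · linarith
  have h1 := card_fib F k _ hfib
  exact h1.trans (mul_le_mul_of_nonneg_right himg (by positivity))

/-- one prime of the middle range -/
lemma d4 {A B : ℤ} {Q a : ℕ} {f : ℕ → ℕ} {l0 I T S : ℕ}
    (hroot : ∀ r : ℚ, r ^ 3 + A * r + B ≠ 0) (hQ : 0 < Q)
    (hf : ∀ l l' : ℕ, l0 ≤ l → l ≤ l' → l' < l0 + T → f l' ≤ f l)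
    (hS : ∀ l, l0 ≤ l → l < l0 + T → f l ≤ S)
    {p : ℕ} (hp : p.Prime) (hdisc : ¬ (p : ℤ) ∣ 4 * A ^ 3 + 27 * B ^ 2)
    {F : Finset (ℕ × ℕ)} (hF : F ⊆ Bx 0 l0 I T)
    (hG : ∀ x ∈ F, ((p ^ 2 : ℕ) : ℤ) ∣ GZ A B 0 (sx Q f x) (vx Q a x) ∧
      ¬ p ∣ vx Q a x) {Δ : ℝ} (hΔ : 0 < Δ) (hpΔ : Cg A B 0 * (Q * Δ) ^ 3 < (p : ℝ) ^ 2) :
    (F.card : ℝ) ≤ 3 * ((4 * (T + S + I) / Δ + 1) * (2 * I / Δ + 2)) := by
  refine card_color (m := 0) hp hdisc F (sx Q f) (vx Q a) hG _ ?_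
  intro T' hT' hcl
  refine strip_card hf hS (hT'.trans hF) hΔ ?_
  intro x hx y hy hne
  by_contra hcon
  push Not at hcon
  obtain ⟨c1, c2⟩ := hcon
  have hc := hcl x hx y hy
  obtain ⟨hg, hv⟩ := hG x (hT' hx)
  have hQ' : (0 : ℝ) < Q := by exact_mod_cast hQ
  have hvZ : ¬ (p : ℤ) ∣ ((vx Q a x : ℕ) : ℤ) := fun hh => hv (Int.natCast_dvd_natCast.1 hh)
  set ix : ℕ := f x.2 + x.1 with hix
  set iy : ℕ := f y.2 + y.1 with hiy
  have hd := dvd_gI (A := A) (B := B) (m := 0) hp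
    (s := ((sx Q f x : ℕ) : ℤ)) (v := ((vx Q a x : ℕ) : ℤ))
    (a := (Q : ℤ) * ((iy : ℤ) - ix)) (b := (Q : ℤ) * ((y.2 : ℤ) - x.2)) hvZ
    (by rw [← GZ_eq]; exact hg)
    (by
      have e : ((sx Q f x : ℕ) : ℤ) * ((Q : ℤ) * ((y.2 : ℤ) - x.2)) -
          (Q : ℤ) * ((iy : ℤ) - ix) * ((vx Q a x : ℕ) : ℤ) =
          ((sx Q f x : ℕ) : ℤ) * ((vx Q a y : ℕ) : ℤ) -
            ((sx Q f y : ℕ) : ℤ) * ((vx Q a x : ℕ) : ℤ) := by
        unfold sx vx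
        rw [← hix, ← hiy]
        push_cast; ring
      rw [e]; exact hc)
  have hne0 : gI A B 0 ((Q : ℤ) * ((iy : ℤ) - ix)) ((Q : ℤ) * ((y.2 : ℤ) - x.2)) ≠ 0 := by
    apply gI_ne hroot
    by_contra h0
    push Not at h0
    obtain ⟨z1, z2⟩ := h0
    have hQZ : (Q : ℤ) ≠ 0 := by exact_mod_cast hQ.ne'
    have w1 : (iy : ℤ) - ix = 0 := by
      rcases mul_eq_zero.1 z1 with h | h
      · exact absurd h hQZ
      · exact h
    have w2 : (y.2 : ℤ) - x.2 = 0 := by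
      rcases mul_eq_zero.1 z2 with h | h
      · exact absurd h hQZ
      · exact h
    apply hne
    have w3 : x.2 = y.2 := by omega
    refine Prod.ext ?_ w3
    have w4 : iy = ix := by omega
    rw [hiy, hix, w3] at w4
    omega
  have h1 : ((p ^ 2 : ℕ) : ℤ) ≤
      |gI A B 0 ((Q : ℤ) * ((iy : ℤ) - ix)) ((Q : ℤ) * ((y.2 : ℤ) - x.2))| := by
    apply Int.le_of_dvd (abs_pos.2 hne0)
    rwa [dvd_abs]
  have h2 : (((p ^ 2 : ℕ) : ℤ) : ℝ) ≤
      ((|gI A B 0 ((Q : ℤ) * ((iy : ℤ) - ix)) ((Q : ℤ) * ((y.2 : ℤ) - x.2))| : ℤ) : ℝ) := by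
    exact_mod_cast h1
  rw [Int.cast_abs] at h2
  have h3 := gI_le A B 0 (a := (Q : ℤ) * ((iy : ℤ) - ix)) (b := (Q : ℤ) * ((y.2 : ℤ) - x.2))
    (M := Q * Δ) (by
      push_cast
      rw [abs_mul, Nat.abs_cast, abs_sub_comm]
      exact mul_le_mul_of_nonneg_left c1.le hQ'.le) (by
      push_cast
      rw [abs_mul, Nat.abs_cast, abs_sub_comm]
      exact mul_le_mul_of_nonneg_left c2.le hQ'.le)
  push_cast at h2
  push_cast at h3
  linarith

/-- one prime of the large range, coprime pairs -/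
lemma d4b {A B : ℤ} {Q a : ℕ} {f : ℕ → ℕ} {l0 I T S : ℕ} (hQ : 0 < Q) (hSpos : 0 < S)
    {p : ℕ} (hp : p.Prime) (hdisc : ¬ (p : ℤ) ∣ 4 * A ^ 3 + 27 * B ^ 2)
    {F : Finset (ℕ × ℕ)} (_hF : F ⊆ Bx 0 l0 I T)
    (hb : ∀ x ∈ F, sx Q f x ≤ S ∧ vx Q a x ≤ sx Q f x)
    (hG : ∀ x ∈ F, ((p ^ 2 : ℕ) : ℤ) ∣ GZ A B 0 (sx Q f x) (vx Q a x) ∧ ¬ p ∣ vx Q a x)
    (hcop : ∀ x ∈ F, Nat.Coprime (sx Q f x) (vx Q a x)) :
    (F.card : ℝ) ≤ 3 * ((S : ℝ) ^ 2 / (p : ℝ) ^ 2 + 1) := by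
  have hp' : (0 : ℝ) < p := by exact_mod_cast hp.pos
  have hS' : (0 : ℝ) < S := by exact_mod_cast hSpos
  refine card_color (m := 0) hp hdisc F (sx Q f) (vx Q a) hG _ ?_
  intro T' hT' hcl
  have hε : (0 : ℝ) < (p : ℝ) ^ 2 / (S : ℝ) ^ 2 := by positivity
  have hsp := card_spaced T' (fun x => ((vx Q a x : ℕ) : ℝ) / ((sx Q f x : ℕ) : ℝ)) (a := 0)
    (L := 1) hε zero_le_one ?_ ?_
  · have e : (1 : ℝ) / ((p : ℝ) ^ 2 / (S : ℝ) ^ 2) = (S : ℝ) ^ 2 / (p : ℝ) ^ 2 := by field_simp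
    rw [e] at hsp
    exact hsp
  · intro x hx
    have hspos : (0 : ℝ) < ((sx Q f x : ℕ) : ℝ) := by
      have : 0 < sx Q f x := by unfold sx; omega
      exact_mod_cast this
    refine ⟨by positivity, ?_⟩
    rw [zero_add, div_le_one hspos]
    exact_mod_cast (hb x (hT' hx)).2
  · intro x hx y hy hne
    have hsxpos : 0 < sx Q f x := by unfold sx; omega
    have hsypos : 0 < sx Q f y := by unfold sx; omega
    have hsx' : (0 : ℝ) < ((sx Q f x : ℕ) : ℝ) := by exact_mod_cast hsxpos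
    have hsy' : (0 : ℝ) < ((sx Q f y : ℕ) : ℝ) := by exact_mod_cast hsypos
    have hsxS : ((sx Q f x : ℕ) : ℝ) ≤ S := by exact_mod_cast (hb x (hT' hx)).1
    have hsyS : ((sx Q f y : ℕ) : ℝ) ≤ S := by exact_mod_cast (hb y (hT' hy)).1
    have hc := hcl x hx y hy
    have hne0 : ((sx Q f x : ℕ) : ℤ) * ((vx Q a y : ℕ) : ℤ) -
        ((sx Q f y : ℕ) : ℤ) * ((vx Q a x : ℕ) : ℤ) ≠ 0 := by
      intro h0
      have h1 : sx Q f x * vx Q a y = sx Q f y * vx Q a x := by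
        have : ((sx Q f x : ℕ) : ℤ) * ((vx Q a y : ℕ) : ℤ) =
          ((sx Q f y : ℕ) : ℤ) * ((vx Q a x : ℕ) : ℤ) := by linarith
        exact_mod_cast this
      have h2 : sx Q f x ∣ sx Q f y := by
        apply (hcop x (hT' hx)).dvd_of_dvd_mul_right
        exact Dvd.intro _ h1
      have h3 : sx Q f y ∣ sx Q f x := by
        apply (hcop y (hT' hy)).dvd_of_dvd_mul_right
        exact Dvd.intro _ h1.symm
      have h4 : sx Q f x = sx Q f y := Nat.dvd_antisymm h2 h3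
      rw [h4] at h1
      have h5 : vx Q a y = vx Q a x := Nat.eq_of_mul_eq_mul_left hsypos h1
      unfold vx at h5
      have h6 : y.2 = x.2 := by
        have : Q * y.2 = Q * x.2 := by omega
        exact Nat.eq_of_mul_eq_mul_left hQ this
      unfold sx at h4
      rw [h6] at h4
      have h7 : f x.2 + x.1 = f x.2 + y.1 := by
        have : Q * (f x.2 + x.1) = Q * (f x.2 + y.1) := by omega
        exact Nat.eq_of_mul_eq_mul_left hQ this
      exact hne (Prod.ext (by omega) h6.symm)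
    have h1 : ((p ^ 2 : ℕ) : ℤ) ≤ |((sx Q f x : ℕ) : ℤ) * ((vx Q a y : ℕ) : ℤ) -
        ((sx Q f y : ℕ) : ℤ) * ((vx Q a x : ℕ) : ℤ)| := by
      apply Int.le_of_dvd (abs_pos.2 hne0)
      rwa [dvd_abs]
    have h2 : (p : ℝ) ^ 2 ≤ |((sx Q f x : ℕ) : ℝ) * ((vx Q a y : ℕ) : ℝ) -
        ((sx Q f y : ℕ) : ℝ) * ((vx Q a x : ℕ) : ℝ)| := by exact_mod_cast h1
    have e : ((vx Q a x : ℕ) : ℝ) / ((sx Q f x : ℕ) : ℝ) -
        ((vx Q a y : ℕ) : ℝ) / ((sx Q f y : ℕ) : ℝ) =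
        -(((sx Q f x : ℕ) : ℝ) * ((vx Q a y : ℕ) : ℝ) -
        ((sx Q f y : ℕ) : ℝ) * ((vx Q a x : ℕ) : ℝ)) /
        (((sx Q f x : ℕ) : ℝ) * ((sx Q f y : ℕ) : ℝ)) := by
      field_simp
      ring
    rw [e, abs_div, abs_neg, abs_of_pos (mul_pos hsx' hsy')]
    have h3 : ((sx Q f x : ℕ) : ℝ) * ((sx Q f y : ℕ) : ℝ) ≤ (S : ℝ) ^ 2 := by
      rw [pow_two]
      exact mul_le_mul hsxS hsyS hsy'.le hS'.le
    exact div_le_div₀ (abs_nonneg _) h2 (mul_pos hsx' hsy') h3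

end Pool.Agent.TH827.GE
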