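import Mathlib
import Pool.Agent.TH827.GE.St
import Pool.Agent.TH827.GE.Conv

/-! The large primes. -/

set_option autoImplicit false

namespace Pool.Agent.TH827.GE

open Finset Pool.Agent.TH562.TW Pool.Agent.TH562.R2

lemma three_spanS {F : Finset ℕ} {i0 I H : ℕ} (hH : 0 < H) (hF : F ⊆ Finset.Ico i0 (i0 + I))
    (h : ∀ x ∈ F, ∀ y ∈ F, ∀ z ∈ F, x < y → y < z → H < z - x) : F.card ≤ 2 * (I / H + 1) := by
  classical
  have h1 : F.card ≤ 2 * (F.image fun i => (i - i0) / H).card := by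
    apply Finset.card_le_mul_card_image
    intro k _
    by_contra hcon
    push Not at hcon
    obtain ⟨x, hx, y, hy, z, hz, h12, h13, h23⟩ := Finset.two_lt_card.1 hcon
    have key : ∀ x y z : ℕ, x ∈ F.filter (fun i => (i - i0) / H = k) →
        y ∈ F.filter (fun i => (i - i0) / H = k) → z ∈ F.filter (fun i => (i - i0) / H = k) →
        x < y → y < z → False := by
      intro x y z hx hy hz hxy hyz
      obtain ⟨x1, x2⟩ := Finset.mem_filter.1 hx
      obtain ⟨y1, y2⟩ := Finset.mem_filter.1 hy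
      obtain ⟨z1, z2⟩ := Finset.mem_filter.1 hz
      have h3 := h x x1 y y1 z z1 hxy hyz
      have hx0 := (Finset.mem_Ico.1 (hF x1)).1
      have hz0 := (Finset.mem_Ico.1 (hF z1)).1
      have e1 := Nat.div_add_mod (x - i0) H
      have e2 := Nat.div_add_mod (z - i0) H
      have e3 := Nat.mod_lt (z - i0) hH
      rw [x2] at e1
      rw [z2] at e2
      omega
    rcases lt_or_gt_of_ne h12 with a1 | a1 <;> rcases lt_or_gt_of_ne h13 with a2 | a2 <;>
      rcases lt_or_gt_of_ne h23 with a3 | a3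
    · exact key x y z hx hy hz a1 a3
    · exact key x z y hx hz hy a2 a3
    · omega
    · exact key z x y hz hx hy a2 a1
    · exact key y x z hy hx hz a1 a2
    · omega
    · exact key y z x hy hz hx a3 a2
    · exact key z y x hz hy hx a3 a1
  have h2 : (F.image fun i => (i - i0) / H).card ≤ I / H + 1 := by
    rw [← Finset.card_range (I / H + 1)]
    apply Finset.card_le_card
    intro k hk
    obtain ⟨i, hi, rfl⟩ := Finset.mem_image.1 hk
    obtain ⟨g1, g2⟩ := Finset.mem_Ico.1 (hF hi)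
    rw [Finset.mem_range]
    exact Nat.lt_succ_of_le (Nat.div_le_div_right (by omega))
  omega

/-- the region -/
def OkS (A B : ℤ) (Q a : ℕ) (f : ℕ → ℕ) (E : ℕ) (x : ℕ × ℕ) : Prop :=
  E ≤ sx Q f x ∧
  100 * |A * ((vx Q a x : ℕ) : ℤ) ^ 2| ≤ ((sx Q f x : ℕ) : ℤ) ^ 2 ∧
  100 * |B * ((vx Q a x : ℕ) : ℤ) ^ 3| ≤ ((sx Q f x : ℕ) : ℤ) ^ 3

open Classical in
/-- one column and one multiplier -/
lemma e5q {A B : ℤ} {Q a l0 I T E H : ℕ} {f : ℕ → ℕ} (hQ : 0 < Q) (hH : 0 < H) (hE : 0 < E)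
    (hR : ∀ x ∈ Bx 0 l0 I T, OkS A B Q a f E x) (hI : 100 * (Q * I) ≤ E)
    {l : ℕ} (hl : l ∈ Finset.Ico l0 (l0 + T)) {q : ℕ} (hq : 0 < q)
    (hHE : 3 * (Q * H) ^ 6 < q * E) :
    (((Finset.Ico 0 (0 + I)).filter fun i => ∃ w : ℕ, 0 < w ∧
      GZ A B 0 (1 + Q * (f l + i)) (a + Q * l) = q * (w : ℤ) ^ 2)).card ≤ 2 * (I / H + 1) := by
  apply three_spanS hH (Finset.filter_subset _ _)
  intro x hx y hy z hz hxy hyz
  obtain ⟨x1, wx, x2, x3⟩ := Finset.mem_filter.1 hx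
  obtain ⟨y1, wy, y2, y3⟩ := Finset.mem_filter.1 hy
  obtain ⟨z1, wz, z2, z3⟩ := Finset.mem_filter.1 hz
  have bx : (x, l) ∈ Bx 0 l0 I T := mem_Bx.2 ⟨Finset.mem_Ico.1 x1, Finset.mem_Ico.1 hl⟩
  obtain ⟨r1, r2, r3⟩ := hR _ bx
  unfold sx at r1
  unfold sx vx at r2 r3
  simp only at r1 r2 r3
  have hx' := Finset.mem_Ico.1 x1
  have hz' := Finset.mem_Ico.1 z1
  by_contra hcon
  push Not at hcon
  have hEZ : (0 : ℤ) < E := by exact_mod_cast hE
  have hQZ : (0 : ℤ) < Q := by exact_mod_cast hQ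
  unfold GZ at x3 y3 z3
  have r1' : (E : ℤ) ≤ ((1 + Q * (f l + x) : ℕ) : ℤ) := by exact_mod_cast r1
  simp only [Nat.cast_zero, zero_mul, sub_zero] at x3 y3 z3
  have hxyZ : (x : ℤ) + 1 ≤ y := by exact_mod_cast hxy
  have hyzZ : (y : ℤ) + 1 ≤ z := by exact_mod_cast hyz
  have key := conv (A := A) (B := B) (v := ((a + Q * l : ℕ) : ℤ)) (q := q)
    (u1 := ((1 + Q * (f l + x) : ℕ) : ℤ))
    (u2 := ((1 + Q * (f l + y) : ℕ) : ℤ))
    (u3 := ((1 + Q * (f l + z) : ℕ) : ℤ))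
    (w1 := wx) (w2 := wy) (w3 := wz) (by exact_mod_cast hq) (by exact_mod_cast x2)
    (by exact_mod_cast y2) (by exact_mod_cast z2)
    (by push_cast; nlinarith) (by push_cast; nlinarith) x3.symm y3.symm z3.symm
    (by linarith) r2 r3
    (by
      have h1 : ((z : ℤ) - x) ≤ I := by omega
      have h2 : (Q : ℤ) * ((z : ℤ) - x) ≤ Q * I := mul_le_mul_of_nonneg_left h1 hQZ.le
      have h3 : (100 : ℤ) * (Q * I) ≤ E := by exact_mod_cast hI
      push_cast at r1' ⊢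
      nlinarith)
  have h4 : ((1 + Q * (f l + z) : ℕ) : ℤ) - ((1 + Q * (f l + x) : ℕ) : ℤ) =
      (Q : ℤ) * ((z : ℤ) - x) := by
    push_cast; ring
  rw [h4] at key
  have h5 : (0 : ℤ) ≤ (z : ℤ) - x := by linarith
  have h6 : (z : ℤ) - x ≤ H := by omega
  have h7 : ((Q : ℤ) * ((z : ℤ) - x)) ^ 6 ≤ ((Q : ℤ) * H) ^ 6 :=
    pow_le_pow_left₀ (mul_nonneg hQZ.le h5) (mul_le_mul_of_nonneg_left h6 hQZ.le) 6
  have h8 : (3 : ℤ) * (Q * H) ^ 6 < q * E := by exact_mod_cast hHE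
  have h9 : (q : ℤ) * E ≤ q * ((1 + Q * (f l + x) : ℕ) : ℤ) :=
    mul_le_mul_of_nonneg_left r1' (Int.natCast_nonneg _)
  linarith

lemma sixth (q r : ℕ) (hq : 0 < q) (hr : q < r ^ 6) :
    ∃ t, 1 ≤ t ∧ t < r ∧ t ^ 6 ≤ q ∧ q < (t + 1) ^ 6 := by
  classical
  have hex : ∃ t, q < (t + 1) ^ 6 := ⟨q, by
    calc q < q + 1 := Nat.lt_succ_self q
      _ ≤ (q + 1) ^ 6 := Nat.le_self_pow (by norm_num) _⟩
  refine ⟨Nat.find hex, ?_, ?_, ?_, Nat.find_spec hex⟩
  · by_contra h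
    have h0 : Nat.find hex = 0 := by omega
    have := Nat.find_spec hex
    rw [h0] at this
    norm_num at this
    omega
  · by_contra h
    push Not at h
    have hr1 : 1 ≤ r := by
      by_contra hr0
      have : r = 0 := by omega
      rw [this] at hr
      norm_num at hr
    have := Nat.find_min hex (m := r - 1) (by omega)
    apply this
    have e : r - 1 + 1 = r := by omega
    rw [e]; exact hr
  · rcases Nat.eq_zero_or_pos (Nat.find hex) with h | h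
    · rw [h]; norm_num
    · have := Nat.find_min hex (m := Nat.find hex - 1) (by omega)
      push Not at this
      have e : Nat.find hex - 1 + 1 = Nat.find hex := by omega
      rw [e] at this
      exact this

open Classical in
/-- the large primes -/
lemma e5 {A B : ℤ} {Q a l0 I T E H1 r P : ℕ} {f : ℕ → ℕ} (hQ : 0 < Q) (hH1 : 0 < H1) (hE : 0 < E)
    (hR : ∀ x ∈ Bx 0 l0 I T, OkS A B Q a f E x) (hI : 100 * (Q * I) ≤ E)
    (hHE : 3 * (Q * H1) ^ 6 < E)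
    (hG : ∀ x ∈ Bx 0 l0 I T, 0 < GZ A B 0 (sx Q f x) (vx Q a x) ∧
      GZ A B 0 (sx Q f x) (vx Q a x) < (r ^ 6 * P ^ 2 : ℕ)) :
    (((Bx 0 l0 I T).filter fun x => ∃ p : ℕ, p.Prime ∧ P < p ∧
      ((p ^ 2 : ℕ) : ℤ) ∣ GZ A B 0 (sx Q f x) (vx Q a x)).card : ℝ) ≤
      T * (126 * ((r : ℝ) ^ 5 * (I / H1) + (r : ℝ) ^ 6)) := by
  have hHr : (0 : ℝ) < H1 := by exact_mod_cast hH1
  set T5 := (Bx 0 l0 I T).filter fun x => ∃ p : ℕ, p.Prime ∧ P < p ∧
      ((p ^ 2 : ℕ) : ℤ) ∣ GZ A B 0 (sx Q f x) (vx Q a x) with hT5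
  have h1 := cols_le (T := T5) (F := Finset.Ico l0 (l0 + T))
    (b := 126 * ((r : ℝ) ^ 5 * (I / H1) + (r : ℝ) ^ 6)) ?_ (by positivity) ?_
  · rw [Nat.card_Ico] at h1
    have e : l0 + T - l0 = T := by omega
    rw [e] at h1
    exact h1
  · intro x hx
    exact Finset.mem_Ico.2 (mem_Bx.1 (Finset.mem_filter.1 hx).1).2
  · intro l hl
    -- the union over the multipliers
    set U : ℕ → Finset ℕ := fun q => (Finset.Ico 0 (0 + I)).filter fun i => ∃ w : ℕ, 0 < w ∧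
      GZ A B 0 (1 + Q * (f l + i)) (a + Q * l) = q * (w : ℤ) ^ 2 with hU
    have h2 : (T5.filter fun x => x.2 = l).card ≤
        ((Finset.Ico 1 r).biUnion fun t => (Finset.Ico (t ^ 6) ((t + 1) ^ 6)).biUnion U).card := by
      apply Finset.card_le_card_of_injOn (fun x => x.1)
      · intro x hx
        obtain ⟨hx1, hx2⟩ := Finset.mem_filter.1 hx
        obtain ⟨hx3, p, hp, hPp, hdv⟩ := Finset.mem_filter.1 hx1
        obtain ⟨g1, g2⟩ := hG x hx3
        obtain ⟨q, hq⟩ := hdv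
        unfold sx vx at g1 g2 hq
        rw [hx2] at g1 g2 hq
        have hp2 : (0 : ℤ) < ((p ^ 2 : ℕ) : ℤ) := by
          have := pow_pos hp.pos 2
          exact_mod_cast this
        have hq0 : 0 < q := by
          rw [hq] at g1
          exact pos_of_mul_pos_right g1 hp2.le
        have hqr : q < (r : ℤ) ^ 6 := by
          by_contra hcon
          push Not at hcon
          have h3 : ((P ^ 2 : ℕ) : ℤ) ≤ ((p ^ 2 : ℕ) : ℤ) := by
            have := Nat.pow_le_pow_left hPp.le 2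
            exact_mod_cast this
          have h5 : ((P ^ 2 : ℕ) : ℤ) * (r : ℤ) ^ 6 ≤ ((p ^ 2 : ℕ) : ℤ) * q :=
            mul_le_mul h3 hcon (by positivity) hp2.le
          rw [hq] at g2
          push_cast at g2 h5
          linarith
        obtain ⟨t, t1, t2, t3, t4⟩ := sixth q.toNat r (by omega) (by
          have : ((q.toNat : ℕ) : ℤ) < ((r ^ 6 : ℕ) : ℤ) := by
            rw [Int.toNat_of_nonneg hq0.le]; push_cast; exact hqr
          exact_mod_cast this)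
        refine Finset.mem_coe.2 (Finset.mem_biUnion.2 ⟨t, Finset.mem_Ico.2 ⟨t1, t2⟩,
          Finset.mem_biUnion.2 ⟨q.toNat, Finset.mem_Ico.2 ⟨t3, t4⟩, ?_⟩⟩)
        rw [hU]
        refine Finset.mem_filter.2 ⟨Finset.mem_Ico.2 (mem_Bx.1 hx3).1, p, hp.pos, ?_⟩
        rw [hq, Int.toNat_of_nonneg hq0.le]
        push_cast
        ring
      · intro x hx y hy hxy
        have hx2 := (Finset.mem_filter.1 (Finset.mem_coe.1 hx)).2
        have hy2 := (Finset.mem_filter.1 (Finset.mem_coe.1 hy)).2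
        exact Prod.ext hxy (hx2.trans hy2.symm)
    have h3 : (((Finset.Ico 1 r).biUnion fun t =>
        (Finset.Ico (t ^ 6) ((t + 1) ^ 6)).biUnion U).card : ℝ) ≤
        ∑ t ∈ Finset.Ico 1 r, 126 * ((r : ℝ) ^ 4 * (I / H1) + (r : ℝ) ^ 5) := by
      have k1 : (((Finset.Ico 1 r).biUnion fun t =>
          (Finset.Ico (t ^ 6) ((t + 1) ^ 6)).biUnion U).card : ℝ) ≤
          ∑ t ∈ Finset.Ico 1 r, (((Finset.Ico (t ^ 6) ((t + 1) ^ 6)).biUnion U).card : ℝ) := by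
        exact_mod_cast Finset.card_biUnion_le
      refine k1.trans (Finset.sum_le_sum fun t ht => ?_)
      obtain ⟨t1, t2⟩ := Finset.mem_Ico.1 ht
      have htr : (t : ℝ) ≤ r := by exact_mod_cast t2.le
      have ht1 : (1 : ℝ) ≤ t := by exact_mod_cast t1
      have htH : 0 < t * H1 := Nat.mul_pos (by omega) hH1
      have k2 : (((Finset.Ico (t ^ 6) ((t + 1) ^ 6)).biUnion U).card : ℝ) ≤
          ∑ q ∈ Finset.Ico (t ^ 6) ((t + 1) ^ 6), (2 * ((I : ℝ) / (t * H1) + 1)) := by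
        have k3 : (((Finset.Ico (t ^ 6) ((t + 1) ^ 6)).biUnion U).card : ℝ) ≤
            ∑ q ∈ Finset.Ico (t ^ 6) ((t + 1) ^ 6), ((U q).card : ℝ) := by
          exact_mod_cast Finset.card_biUnion_le
        refine k3.trans (Finset.sum_le_sum fun q hq => ?_)
        obtain ⟨q1, q2⟩ := Finset.mem_Ico.1 hq
        have hq0 : 0 < q := lt_of_lt_of_le (pow_pos (by omega) 6) q1
        have k4 := e5q (H := t * H1) hQ htH hE hR hI hl hq0 (by
          calc 3 * (Q * (t * H1)) ^ 6 = t ^ 6 * (3 * (Q * H1) ^ 6) := by ring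
            _ < t ^ 6 * E := Nat.mul_lt_mul_of_pos_left hHE (pow_pos (by omega) 6)
            _ ≤ q * E := Nat.mul_le_mul_right _ q1)
        have k5 : ((U q).card : ℝ) ≤ ((2 * (I / (t * H1) + 1) : ℕ) : ℝ) := by
          rw [hU]; exact_mod_cast k4
        refine k5.trans ?_
        push_cast
        have k6 : (((I / (t * H1) : ℕ)) : ℝ) ≤ (I : ℝ) / ((t * H1 : ℕ) : ℝ) := Nat.cast_div_le
        push_cast at k6
        linarith
      refine k2.trans ?_
      rw [Finset.sum_const, nsmul_eq_mul, Nat.card_Ico]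
      have k7 : (((t + 1) ^ 6 - t ^ 6 : ℕ) : ℝ) ≤ 63 * (t : ℝ) ^ 5 := by
        rw [Nat.cast_sub (Nat.pow_le_pow_left (by omega) 6)]
        push_cast
        have e1 : ((t : ℝ) + 1) ^ 6 - (t : ℝ) ^ 6 = 6 * (t : ℝ) ^ 5 + 15 * (t : ℝ) ^ 4 +
          20 * (t : ℝ) ^ 3 + 15 * (t : ℝ) ^ 2 + 6 * t + 1 := by ring
        have e2 : (t : ℝ) ^ 4 ≤ (t : ℝ) ^ 5 := pow_le_pow_right₀ ht1 (by norm_num)
        have e3 : (t : ℝ) ^ 3 ≤ (t : ℝ) ^ 5 := pow_le_pow_right₀ ht1 (by norm_num)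
        have e4 : (t : ℝ) ^ 2 ≤ (t : ℝ) ^ 5 := pow_le_pow_right₀ ht1 (by norm_num)
        have e5 : (t : ℝ) ≤ (t : ℝ) ^ 5 := le_self_pow₀ ht1 (by norm_num)
        have e6 : (1 : ℝ) ≤ (t : ℝ) ^ 5 := one_le_pow₀ ht1
        linarith
      calc (((t + 1) ^ 6 - t ^ 6 : ℕ) : ℝ) * (2 * ((I : ℝ) / (t * H1) + 1))
          ≤ 63 * (t : ℝ) ^ 5 * (2 * ((I : ℝ) / (t * H1) + 1)) :=
            mul_le_mul_of_nonneg_right k7 (by positivity)
        _ = 126 * ((t : ℝ) ^ 4 * (I / H1) + (t : ℝ) ^ 5) := by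
            have : (t : ℝ) ≠ 0 := by positivity
            field_simp
            ring
        _ ≤ 126 * ((r : ℝ) ^ 4 * (I / H1) + (r : ℝ) ^ 5) := by
            have e1 : (t : ℝ) ^ 4 ≤ (r : ℝ) ^ 4 := pow_le_pow_left₀ (by positivity) htr 4
            have e2 : (t : ℝ) ^ 5 ≤ (r : ℝ) ^ 5 := pow_le_pow_left₀ (by positivity) htr 5
            have e3 : (t : ℝ) ^ 4 * (I / H1) ≤ (r : ℝ) ^ 4 * (I / H1) :=
              mul_le_mul_of_nonneg_right e1 (by positivity)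
            linarith
    have h2' : (((T5.filter fun x => x.2 = l).card : ℕ) : ℝ) ≤ (((Finset.Ico 1 r).biUnion fun t =>
        (Finset.Ico (t ^ 6) ((t + 1) ^ 6)).biUnion U).card : ℝ) := by exact_mod_cast h2
    refine (h2'.trans h3).trans ?_
    rw [Finset.sum_const, nsmul_eq_mul, Nat.card_Ico]
    have h4 : ((r - 1 : ℕ) : ℝ) ≤ r := by
      have : r - 1 ≤ r := Nat.sub_le _ _
      exact_mod_cast this
    calc ((r - 1 : ℕ) : ℝ) * (126 * ((r : ℝ) ^ 4 * (I / H1) + (r : ℝ) ^ 5))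
        ≤ r * (126 * ((r : ℝ) ^ 4 * (I / H1) + (r : ℝ) ^ 5)) :=
          mul_le_mul_of_nonneg_right h4 (by positivity)
      _ = _ := by ring

end Pool.Agent.TH827.GE
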