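import Mathlib
import Pool.Agent.TH827.GE.St

/-! The sums over primes. -/

set_option autoImplicit false

namespace Pool.Agent.TH827.GE

open Finset Pool.Agent.TH562.TW Pool.Agent.TH562.R2

lemma Pr_card_le (W X : ℕ) : ((Pr W X).card : ℝ) ≤ X := by
  have h1 : (Pr W X).card ≤ (Finset.Ioc W X).card := Finset.card_le_card (Finset.filter_subset _ _)
  rw [Nat.card_Ioc] at h1
  have h2 : (Pr W X).card ≤ X := by omega
  exact_mod_cast h2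

lemma sum1 {W : ℕ} (hW : 1 ≤ W) (S I T : ℕ) :
    ∑ p ∈ Pr W S, ((I : ℝ) / p + 1) * ((T : ℝ) / p + 1) ≤
      I * T / W + (I + T) * (1 + Real.log S) + S := by
  have e : ∑ p ∈ Pr W S, ((I : ℝ) / p + 1) * ((T : ℝ) / p + 1) =
      I * T * ∑ p ∈ Pr W S, 1 / ((p : ℝ) ^ 2) + (I + T) * ∑ p ∈ Pr W S, 1 / (p : ℝ) +
        (Pr W S).card := by
    rw [Finset.mul_sum, Finset.mul_sum, ← Finset.sum_add_distrib]
    have : ((Pr W S).card : ℝ) = ∑ _p ∈ Pr W S, (1 : ℝ) := by simp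
    rw [this, ← Finset.sum_add_distrib]
    apply Finset.sum_congr rfl
    intro p hp
    have hp0 : (p : ℝ) ≠ 0 := by
      have := (mem_Pr.1 hp).2.pos
      positivity
    field_simp
    ring
  rw [e]
  have h1 := Pr_sq W S hW
  have h2 := Pr_inv W S hW
  have h3 := Pr_card_le W S
  have h4 : (I : ℝ) * T * ∑ p ∈ Pr W S, 1 / ((p : ℝ) ^ 2) ≤ I * T * (1 / W) :=
    mul_le_mul_of_nonneg_left h1 (by positivity)
  have h5 : ((I : ℝ) + T) * ∑ p ∈ Pr W S, 1 / (p : ℝ) ≤ (I + T) * (1 + Real.log S) :=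
    mul_le_mul_of_nonneg_left h2 (by positivity)
  have h6 : (I : ℝ) * T * (1 / W) = I * T / W := by ring
  linarith

lemma sum2 {W : ℕ} (hW : 1 ≤ W) (V I T : ℕ) :
    ∑ p ∈ Pr W V, (I : ℝ) * (T / (p : ℝ) ^ 2 + 1) ≤ (I : ℝ) * T / W + I * V := by
  have e : ∑ p ∈ Pr W V, (I : ℝ) * (T / (p : ℝ) ^ 2 + 1) =
      (I : ℝ) * T * ∑ p ∈ Pr W V, 1 / ((p : ℝ) ^ 2) + I * (Pr W V).card := by
    rw [Finset.mul_sum]
    have : (I : ℝ) * ((Pr W V).card : ℝ) = ∑ _p ∈ Pr W V, (I : ℝ) := by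
      rw [Finset.sum_const, nsmul_eq_mul]; ring
    rw [this, ← Finset.sum_add_distrib]
    apply Finset.sum_congr rfl
    intro p hp
    ring
  rw [e]
  have h1 := Pr_sq W V hW
  have h3 := Pr_card_le W V
  have h4 : (I : ℝ) * T * ∑ p ∈ Pr W V, 1 / ((p : ℝ) ^ 2) ≤ I * T * (1 / W) :=
    mul_le_mul_of_nonneg_left h1 (by positivity)
  have h5 : (I : ℝ) * (Pr W V).card ≤ I * V := mul_le_mul_of_nonneg_left h3 (by positivity)
  have h6 : (I : ℝ) * T * (1 / W) = I * T / W := by ring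
  linarith

lemma sum3 {W : ℕ} (hW : 1 ≤ W) (P I T : ℕ) :
    ∑ p ∈ Pr W P, (T : ℝ) * (3 * (I / (p : ℝ) ^ 2 + 1)) ≤ 3 * ((I : ℝ) * T / W + T * P) := by
  have h := sum2 hW P T I
  have e : ∑ p ∈ Pr W P, (T : ℝ) * (3 * (I / (p : ℝ) ^ 2 + 1)) =
      3 * ∑ p ∈ Pr W P, (T : ℝ) * (I / (p : ℝ) ^ 2 + 1) := by
    rw [Finset.mul_sum]
    apply Finset.sum_congr rfl
    intro p _
    ring
  rw [e]
  have : (T : ℝ) * I / W = (I : ℝ) * T / W := by ring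
  linarith

/-- the separation for one prime of the middle range -/
lemma delta {C D : ℝ} {Q n p : ℕ} (hC : 0 < C) (hQ : 0 < Q) (hn : 1 ≤ n) (hD : D = (C + 1) * Q)
    (hp1 : n ^ 11 < p) (hp2 : p ≤ n ^ 19) {U I : ℝ} (hU : 0 ≤ U) (hI : 0 ≤ I) :
    ∃ Δ : ℝ, 0 < Δ ∧ C * (Q * Δ) ^ 3 < (p : ℝ) ^ 2 ∧
      3 * ((4 * U / Δ + 1) * (2 * I / Δ + 2)) ≤
        3 * (8 * U * I * D ^ 2 / (n : ℝ) ^ 3 + (8 * U + 2 * I) * D * (n : ℝ) ^ 7) *
          (1 / (p : ℝ)) + 6 := by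
  have hQ' : (0 : ℝ) < Q := by exact_mod_cast hQ
  have hn1 : (1 : ℝ) ≤ n := by exact_mod_cast hn
  have hn' : (0 : ℝ) < n := by linarith
  have hppos : 0 < p := by omega
  have hp' : (0 : ℝ) < p := by exact_mod_cast hppos
  have hD0 : 0 < D := by rw [hD]; positivity
  set x : ℝ := (p : ℝ) ^ ((1 : ℝ) / 3) with hx
  have hx0 : 0 < x := Real.rpow_pos_of_pos hp' _
  have hx3 : x ^ 3 = p := by
    rw [hx, ← Real.rpow_natCast, ← Real.rpow_mul hp'.le]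
    norm_num
  have hx5 : (n : ℝ) ^ 3 ≤ x := by
    apply le_of_pow_le_pow_left₀ (n := 3) (by norm_num) hx0.le
    rw [hx3, ← pow_mul]
    have h1 : (n : ℝ) ^ (3 * 3) ≤ (n : ℝ) ^ 11 := pow_le_pow_right₀ hn1 (by norm_num)
    have h2 : (n : ℝ) ^ 11 ≤ p := by exact_mod_cast hp1.le
    linarith
  have hx21 : x ≤ (n : ℝ) ^ 7 := by
    apply le_of_pow_le_pow_left₀ (n := 3) (by norm_num) (by positivity)
    rw [hx3, ← pow_mul]
    have h1 : (n : ℝ) ^ 19 ≤ (n : ℝ) ^ (7 * 3) := pow_le_pow_right₀ hn1 (by norm_num)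
    have h2 : (p : ℝ) ≤ (n : ℝ) ^ 19 := by exact_mod_cast hp2
    linarith
  refine ⟨x ^ 2 / D, by positivity, ?_, ?_⟩
  · have e : C * (Q * (x ^ 2 / D)) ^ 3 = (x ^ 3) ^ 2 * (C / (C + 1) ^ 3) := by
      rw [hD]
      field_simp
    rw [e, hx3]
    have h1 : C / (C + 1) ^ 3 < 1 := by
      rw [div_lt_one (by positivity)]
      have : C + 1 ≤ (C + 1) ^ 3 := le_self_pow₀ (by linarith) (by norm_num)
      linarith
    have h2 : (0 : ℝ) < (p : ℝ) ^ 2 := by positivity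
    nlinarith
  · have e : (4 * U / (x ^ 2 / D) + 1) * (2 * I / (x ^ 2 / D) + 2) =
        8 * U * I * D ^ 2 / (x ^ 3 * x) + (8 * U + 2 * I) * D * x / x ^ 3 + 2 := by
      field_simp
      ring
    rw [e, hx3]
    have h1 : 8 * U * I * D ^ 2 / (p * x) ≤ 8 * U * I * D ^ 2 / (p * (n : ℝ) ^ 3) :=
      div_le_div_of_nonneg_left (by positivity) (by positivity)
        (mul_le_mul_of_nonneg_left hx5 hp'.le)
    have h2 : (8 * U + 2 * I) * D * x / p ≤ (8 * U + 2 * I) * D * (n : ℝ) ^ 7 / p :=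
      div_le_div_of_nonneg_right (mul_le_mul_of_nonneg_left hx21 (by positivity)) hp'.le
    have h3 : 8 * U * I * D ^ 2 / (p * (n : ℝ) ^ 3) =
        8 * U * I * D ^ 2 / (n : ℝ) ^ 3 * (1 / p) := by
      field_simp
    have h4 : (8 * U + 2 * I) * D * (n : ℝ) ^ 7 / p =
        (8 * U + 2 * I) * D * (n : ℝ) ^ 7 * (1 / p) := by
      ring
    rw [h3] at h1
    rw [h4] at h2
    linarith

lemma sum4 {P1 P2 : ℕ} (hP1 : 1 ≤ P1) {R : ℝ} (hR : 0 ≤ R) :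
    ∑ p ∈ Pr P1 P2, (R * (1 / (p : ℝ)) + 6) ≤ R * (1 + Real.log P2) + 6 * P2 := by
  rw [Finset.sum_add_distrib, ← Finset.mul_sum, Finset.sum_const, nsmul_eq_mul]
  have h2 := Pr_inv P1 P2 hP1
  have h3 := Pr_card_le P1 P2
  have h4 := mul_le_mul_of_nonneg_left h2 hR
  linarith

lemma sum4b {P1 : ℕ} (hP1 : 1 ≤ P1) (P2 S : ℕ) :
    ∑ p ∈ Pr P1 P2, 3 * ((S : ℝ) ^ 2 / (p : ℝ) ^ 2 + 1) ≤ 3 * ((S : ℝ) ^ 2 / P1 + P2) := by
  have e : ∑ p ∈ Pr P1 P2, 3 * ((S : ℝ) ^ 2 / (p : ℝ) ^ 2 + 1) =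
      3 * ((S : ℝ) ^ 2 * ∑ p ∈ Pr P1 P2, 1 / ((p : ℝ) ^ 2) + (Pr P1 P2).card) := by
    rw [← Finset.mul_sum, Finset.sum_add_distrib, Finset.mul_sum]
    simp only [Finset.sum_const, nsmul_eq_mul, mul_one]
    congr 2
    apply Finset.sum_congr rfl
    intro p _
    ring
  rw [e]
  have h2 := Pr_sq P1 P2 hP1
  have h3 := Pr_card_le P1 P2
  have h4 : (S : ℝ) ^ 2 * ∑ p ∈ Pr P1 P2, 1 / ((p : ℝ) ^ 2) ≤ (S : ℝ) ^ 2 * (1 / P1) :=
    mul_le_mul_of_nonneg_left h2 (by positivity)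
  have h5 : (S : ℝ) ^ 2 * (1 / P1) = (S : ℝ) ^ 2 / P1 := by ring
  linarith

lemma log_le {n : ℕ} (hn : 1 ≤ n) (k : ℕ) : 1 + Real.log ((n ^ k : ℕ) : ℝ) ≤ (k + 1) * n := by
  have hn' : (1 : ℝ) ≤ n := by exact_mod_cast hn
  push_cast
  rw [Real.log_pow]
  have h1 : Real.log n ≤ n := (Real.log_le_sub_one_of_pos (by linarith)).trans (by linarith)
  have h2 : (k : ℝ) * Real.log n ≤ k * n := mul_le_mul_of_nonneg_left h1 (Nat.cast_nonneg k)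
  linarith

/-- the numerical inequality -/
lemma numer {W n K0 K2 C1 CS : ℕ} {D : ℝ} (hW : 100 ≤ W) (hD : 0 ≤ D) (hn : 1 ≤ n)
    (hK0 : 1 ≤ K0) (hC1 : 300 * K2 ≤ C1) (hC1pos : 1 ≤ C1)
    (hbig : 2 * (32 * ((C1 : ℝ) + K0) + 1 + C1 + 3 * K0 + 480 * ((K0 : ℝ) + CS + C1) * C1 * D ^ 2 +
      60 * (8 * ((K0 : ℝ) + CS + C1) + 2 * C1) * D + 6 + 3 * (CS : ℝ) ^ 2 + 126 * K0) ≤ (n : ℝ))
    {I T S P : ℝ} (hI : I = C1 * (n : ℝ) ^ 12) (hT : T = K0 * (n : ℝ) ^ 30)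
    (hS : S = CS * (n : ℝ) ^ 30) (hP : P = K2 * (n : ℝ) ^ 42) :
    (I * T / W + (I + T) * (1 + Real.log ((n ^ 31 : ℕ) : ℝ)) + (n : ℝ) ^ 31) +
      (I * T / W + I * (n : ℝ) ^ 16) +
      3 * (I * T / W + T * (n : ℝ) ^ 11) +
      (3 * (8 * (T + S + I) * I * D ^ 2 / (n : ℝ) ^ 3 +
        (8 * (T + S + I) + 2 * I) * D * (n : ℝ) ^ 7) *
        (1 + Real.log ((n ^ 19 : ℕ) : ℝ)) + 6 * (n : ℝ) ^ 19) +
      3 * (S ^ 2 / (n : ℝ) ^ 19 + P) +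
      T * (126 * ((n : ℝ) ^ 5 * (I / (12600 * (n : ℝ) ^ 5)) + (n : ℝ) ^ 6)) < I * T := by
  have hn1 : (1 : ℝ) ≤ n := by exact_mod_cast hn
  have hn0 : (0 : ℝ) < n := by linarith
  have hW' : (100 : ℝ) ≤ W := by exact_mod_cast hW
  have l1 := log_le hn 31
  have l2 := log_le hn 19
  have hC1' : (1 : ℝ) ≤ C1 := by exact_mod_cast hC1pos
  have hK0' : (1 : ℝ) ≤ K0 := by exact_mod_cast hK0
  have hCS' : (0 : ℝ) ≤ CS := Nat.cast_nonneg _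
  have hK2' : 300 * (K2 : ℝ) ≤ C1 := by exact_mod_cast hC1
  have l1' : (0 : ℝ) ≤ 1 + Real.log ((n ^ 31 : ℕ) : ℝ) := by
    have : (0 : ℝ) ≤ Real.log ((n ^ 31 : ℕ) : ℝ) := Real.log_natCast_nonneg _
    linarith
  have l2' : (0 : ℝ) ≤ 1 + Real.log ((n ^ 19 : ℕ) : ℝ) := by
    have : (0 : ℝ) ≤ Real.log ((n ^ 19 : ℕ) : ℝ) := Real.log_natCast_nonneg _
    linarith
  set U0 : ℝ := (K0 : ℝ) + CS + C1 with hU0
  have hU0pos : 0 ≤ U0 := by positivity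
  set N : ℝ := (n : ℝ) ^ 41 with hN
  have hN0 : 0 < N := by positivity
  have mono : ∀ k : ℕ, k ≤ 41 → (n : ℝ) ^ k ≤ N := fun k hk => pow_le_pow_right₀ hn1 hk
  have e42 : I * T = C1 * K0 * (n * N) := by rw [hI, hT, hN]; ring
  have hIT0 : 0 < I * T := by rw [e42]; positivity
  have hIT1 : n * N ≤ I * T := by
    rw [e42]
    have : 1 ≤ (C1 : ℝ) * K0 := by nlinarith
    have h2 : 0 < (n : ℝ) * N := by positivity
    nlinarith
  have hI0 : 0 ≤ I := by rw [hI]; positivity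
  have hT0 : 0 ≤ T := by rw [hT]; positivity
  have hS0 : 0 ≤ S := by rw [hS]; positivity
  have h1230 : (n : ℝ) ^ 12 ≤ (n : ℝ) ^ 30 := pow_le_pow_right₀ hn1 (by norm_num)
  have hI30 : I ≤ C1 * (n : ℝ) ^ 30 := by
    rw [hI]; exact mul_le_mul_of_nonneg_left h1230 (by positivity)
  have hU : T + S + I ≤ U0 * (n : ℝ) ^ 30 := by
    have e : U0 * (n : ℝ) ^ 30 = K0 * (n : ℝ) ^ 30 + CS * (n : ℝ) ^ 30 + C1 * (n : ℝ) ^ 30 := by
      rw [hU0]; ring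
    rw [e, hT, hS]
    linarith
  have t1 : I * T / W ≤ I * T / 100 := div_le_div_of_nonneg_left hIT0.le (by norm_num) hW'
  have t2 : (I + T) * (1 + Real.log ((n ^ 31 : ℕ) : ℝ)) ≤ 32 * ((C1 : ℝ) + K0) * N := by
    calc (I + T) * (1 + Real.log ((n ^ 31 : ℕ) : ℝ))
        ≤ ((C1 + K0) * (n : ℝ) ^ 30) * ((31 + 1) * n) := by
          refine mul_le_mul ?_ (by exact_mod_cast l1) l1' (by positivity)
          rw [hT]; linarith
      _ = 32 * ((C1 : ℝ) + K0) * (n : ℝ) ^ 31 := by ring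
      _ ≤ _ := mul_le_mul_of_nonneg_left (mono 31 (by norm_num)) (by positivity)
  have t3 := mono 31 (by norm_num)
  have t4 : I * (n : ℝ) ^ 16 ≤ C1 * N := by
    have e : I * (n : ℝ) ^ 16 = C1 * (n : ℝ) ^ 28 := by rw [hI]; ring
    rw [e]
    exact mul_le_mul_of_nonneg_left (mono 28 (by norm_num)) (by positivity)
  have t5 : T * (n : ℝ) ^ 11 ≤ K0 * N := by
    have e : T * (n : ℝ) ^ 11 = K0 * (n : ℝ) ^ 41 := by rw [hT]; ring
    rw [e]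
  have t6 : 3 * (8 * (T + S + I) * I * D ^ 2 / (n : ℝ) ^ 3 +
        (8 * (T + S + I) + 2 * I) * D * (n : ℝ) ^ 7) *
        (1 + Real.log ((n ^ 19 : ℕ) : ℝ)) ≤
      480 * U0 * C1 * D ^ 2 * N + 60 * (8 * U0 + 2 * C1) * D * N := by
    have a1 : 8 * (T + S + I) * I * D ^ 2 / (n : ℝ) ^ 3 ≤ 8 * U0 * C1 * D ^ 2 * (n : ℝ) ^ 39 := by
      rw [div_le_iff₀ (by positivity)]
      have b1 : 8 * (T + S + I) * I * D ^ 2 ≤ 8 * (U0 * (n : ℝ) ^ 30) * I * D ^ 2 := by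
        apply mul_le_mul_of_nonneg_right _ (by positivity)
        apply mul_le_mul_of_nonneg_right _ hI0
        linarith
      have b2 : 8 * (U0 * (n : ℝ) ^ 30) * I * D ^ 2 =
          8 * U0 * C1 * D ^ 2 * (n : ℝ) ^ 39 * (n : ℝ) ^ 3 := by rw [hI]; ring
      linarith
    have a2 : (8 * (T + S + I) + 2 * I) * D * (n : ℝ) ^ 7 ≤
        (8 * U0 + 2 * C1) * D * (n : ℝ) ^ 37 := by
      have b1 : 8 * (T + S + I) + 2 * I ≤ (8 * U0 + 2 * C1) * (n : ℝ) ^ 30 := by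
        have : (8 * U0 + 2 * C1) * (n : ℝ) ^ 30 = 8 * (U0 * (n : ℝ) ^ 30) +
          2 * (C1 * (n : ℝ) ^ 30) := by ring
        linarith
      have b2 : (8 * (T + S + I) + 2 * I) * D * (n : ℝ) ^ 7 ≤
          ((8 * U0 + 2 * C1) * (n : ℝ) ^ 30) * D * (n : ℝ) ^ 7 := by
        apply mul_le_mul_of_nonneg_right _ (by positivity)
        exact mul_le_mul_of_nonneg_right b1 hD
      have b3 : ((8 * U0 + 2 * C1) * (n : ℝ) ^ 30) * D * (n : ℝ) ^ 7 =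
        (8 * U0 + 2 * C1) * D * (n : ℝ) ^ 37 := by ring
      linarith
    calc 3 * (8 * (T + S + I) * I * D ^ 2 / (n : ℝ) ^ 3 +
        (8 * (T + S + I) + 2 * I) * D * (n : ℝ) ^ 7) * (1 + Real.log ((n ^ 19 : ℕ) : ℝ))
        ≤ 3 * (8 * U0 * C1 * D ^ 2 * (n : ℝ) ^ 39 + (8 * U0 + 2 * C1) * D * (n : ℝ) ^ 37) *
          ((19 + 1) * n) := by
          refine mul_le_mul ?_ (by exact_mod_cast l2) l2' (by positivity)
          linarith
      _ = 480 * U0 * C1 * D ^ 2 * (n : ℝ) ^ 40 + 60 * (8 * U0 + 2 * C1) * D * (n : ℝ) ^ 38 := by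
          ring
      _ ≤ _ := by
          have b1 := mul_le_mul_of_nonneg_left (mono 40 (by norm_num))
            (by positivity : 0 ≤ 480 * U0 * C1 * D ^ 2)
          have b2 := mul_le_mul_of_nonneg_left (mono 38 (by norm_num))
            (by positivity : 0 ≤ 60 * (8 * U0 + 2 * C1) * D)
          linarith
  have t7 := mono 19 (by norm_num)
  have t8 : S ^ 2 / (n : ℝ) ^ 19 = (CS : ℝ) ^ 2 * N := by
    rw [hS, hN]; field_simp
  have t9 : 3 * P ≤ I * T / 100 := by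
    rw [hP, e42]
    have e : (K2 : ℝ) * (n : ℝ) ^ 42 = K2 * (n * N) := by rw [hN]; ring
    rw [e]
    have h2 : 0 < (n : ℝ) * N := by positivity
    have h3 : 300 * (K2 : ℝ) ≤ C1 * K0 := by nlinarith
    nlinarith
  have t10 : T * (126 * ((n : ℝ) ^ 5 * (I / (12600 * (n : ℝ) ^ 5)) + (n : ℝ) ^ 6)) ≤
      I * T / 100 + 126 * K0 * N := by
    have a1 : (n : ℝ) ^ 5 * (I / (12600 * (n : ℝ) ^ 5)) = I / 12600 := by
      field_simp
    rw [a1]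
    have a2 : T * (126 * (I / 12600 + (n : ℝ) ^ 6)) = I * T / 100 + 126 * (T * (n : ℝ) ^ 6) := by
      ring
    have a3 : T * (n : ℝ) ^ 6 = K0 * (n : ℝ) ^ 36 := by rw [hT]; ring
    rw [a2, a3]
    have := mul_le_mul_of_nonneg_left (mono 36 (by norm_num)) (by positivity : 0 ≤ (K0 : ℝ))
    linarith
  have t11 := mul_le_mul_of_nonneg_right hbig hN0.le
  rw [t8]
  nlinarith

end Pool.Agent.TH827.GE
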