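import Mathlib
import Pool.Agent.TH827.GE.Comb
import Pool.Agent.TH562.TW.Seq

/-! The choice of the strip. -/

set_option autoImplicit false

namespace Pool.Agent.TH827.GE

open Pool.Agent.TH562.TW

/-- the quartic form -/
def FR (A B s v : ℝ) : ℝ := v * (s ^ 3 + A * s * v ^ 2 + B * v ^ 3)

lemma PZ_FR (A B : ℤ) (s v : ℕ) : ((PZ A B 0 s v : ℤ) : ℝ) = FR A B s v := by
  unfold PZ FR
  push_cast
  ring

section

variable {A B R V S : ℝ} (hR : 1 ≤ R) (hA : 100 * |A| ≤ R ^ 2) (hB : 100 * |B| ≤ R ^ 3)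
  (hV : 0 < V) (hS : S = 6 * R * V)

include hR hA hV hS in
lemma bA {v : ℝ} (hv0 : 0 ≤ v) (hv : v ≤ 3 * V) : |A * v ^ 2| ≤ S ^ 2 / 400 := by
  rw [abs_mul, abs_of_nonneg (by positivity : 0 ≤ v ^ 2)]
  calc |A| * v ^ 2 ≤ (R ^ 2 / 100) * (3 * V) ^ 2 :=
        mul_le_mul (by linarith) (pow_le_pow_left₀ hv0 hv 2) (by positivity) (by positivity)
    _ = S ^ 2 / 400 := by rw [hS]; ring

include hR hB hV hS in
lemma bB {v : ℝ} (hv0 : 0 ≤ v) (hv : v ≤ 3 * V) : |B * v ^ 3| ≤ S ^ 3 / 800 := by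
  rw [abs_mul, abs_of_nonneg (by positivity : 0 ≤ v ^ 3)]
  calc |B| * v ^ 3 ≤ (R ^ 3 / 100) * (3 * V) ^ 3 :=
        mul_le_mul (by linarith) (pow_le_pow_left₀ hv0 hv 3) (by positivity) (by positivity)
    _ = S ^ 3 / 800 := by rw [hS]; ring

include hR hA hB hV hS in
lemma F1 {s v : ℝ} (hv0 : V ≤ v) (hv : v ≤ 3 * V) (hs0 : 0 ≤ s) (hs : s ≤ S / 2) :
    FR A B s v < V * S ^ 3 := by
  have hv00 : 0 ≤ v := by linarith
  have hS0 : 0 < S := by rw [hS]; positivity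
  obtain ⟨a1, a2⟩ := abs_le.1 (bA hR hA hV hS hv00 hv)
  obtain ⟨b1, b2⟩ := abs_le.1 (bB hR hB hV hS hv00 hv)
  unfold FR
  have h1 : s ^ 3 ≤ (S / 2) ^ 3 := pow_le_pow_left₀ hs0 hs 3
  have h2 : A * s * v ^ 2 ≤ S ^ 3 / 800 := by
    calc A * s * v ^ 2 = s * (A * v ^ 2) := by ring
      _ ≤ s * (S ^ 2 / 400) := mul_le_mul_of_nonneg_left a2 hs0
      _ ≤ (S / 2) * (S ^ 2 / 400) := mul_le_mul_of_nonneg_right hs (by positivity)
      _ = S ^ 3 / 800 := by ring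
  have h3 : 0 < S ^ 3 := by positivity
  have h4 : s ^ 3 + A * s * v ^ 2 + B * v ^ 3 ≤ S ^ 3 / 4 := by
    have e : (S / 2) ^ 3 = S ^ 3 / 8 := by ring
    linarith
  calc v * (s ^ 3 + A * s * v ^ 2 + B * v ^ 3) ≤ v * (S ^ 3 / 4) :=
        mul_le_mul_of_nonneg_left h4 hv00
    _ ≤ (3 * V) * (S ^ 3 / 4) := mul_le_mul_of_nonneg_right hv (by positivity)
    _ < V * S ^ 3 := by nlinarith [mul_pos hV h3]

include hR hA hB hV hS in
lemma F2 {s v : ℝ} (hv0 : V ≤ v) (hv : v ≤ 3 * V) (hs : 3 * S / 2 ≤ s) :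
    2 * (V * S ^ 3) ≤ FR A B s v := by
  have hv00 : 0 ≤ v := by linarith
  have hS0 : 0 < S := by rw [hS]; positivity
  have hs0 : 0 < s := by linarith
  obtain ⟨a1, a2⟩ := abs_le.1 (bA hR hA hV hS hv00 hv)
  obtain ⟨b1, b2⟩ := abs_le.1 (bB hR hB hV hS hv00 hv)
  unfold FR
  have h3 : 0 < S ^ 3 := by positivity
  have h4 : 2 * S ^ 3 ≤ s ^ 3 + A * s * v ^ 2 + B * v ^ 3 := by
    have e1 : s * (-(S ^ 2 / 400)) ≤ s * (A * v ^ 2) := mul_le_mul_of_nonneg_left a1 hs0.le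
    have e2 : (3 * S / 2) ^ 2 ≤ s ^ 2 := pow_le_pow_left₀ (by positivity) hs 2
    have e3 : (3 * S / 2) * ((3 * S / 2) ^ 2 - S ^ 2 / 400) ≤ s * (s ^ 2 - S ^ 2 / 400) := by
      apply mul_le_mul hs (by linarith) _ hs0.le
      have e4 : (3 * S / 2) ^ 2 - S ^ 2 / 400 = S ^ 2 * (899 / 400) := by ring
      rw [e4]; positivity
    have e5 : (3 * S / 2) * ((3 * S / 2) ^ 2 - S ^ 2 / 400) = S ^ 3 * (2697 / 800) := by ring
    have e6 : s * (s ^ 2 - S ^ 2 / 400) = s ^ 3 + s * (-(S ^ 2 / 400)) := by ring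
    have e7 : A * s * v ^ 2 = s * (A * v ^ 2) := by ring
    rw [e5, e6] at e3
    rw [e7]
    linarith
  calc 2 * (V * S ^ 3) = V * (2 * S ^ 3) := by ring
    _ ≤ v * (s ^ 3 + A * s * v ^ 2 + B * v ^ 3) :=
        mul_le_mul hv0 h4 (by positivity) hv00

include hR hA hV hS in
lemma F3 {s s' v : ℝ} (hv0 : V ≤ v) (hv : v ≤ 3 * V) (hs : S / 2 ≤ s) (hss : s ≤ s') :
    FR A B s v ≤ FR A B s' v := by
  have hv00 : 0 ≤ v := by linarith
  have hS0 : 0 < S := by rw [hS]; positivity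
  have hs0 : 0 < s := by linarith
  obtain ⟨a1, a2⟩ := abs_le.1 (bA hR hA hV hS hv00 hv)
  unfold FR
  apply mul_le_mul_of_nonneg_left _ hv00
  have e : s' ^ 3 + A * s' * v ^ 2 + B * v ^ 3 - (s ^ 3 + A * s * v ^ 2 + B * v ^ 3) =
      (s' - s) * (s' ^ 2 + s * s' + s ^ 2 + A * v ^ 2) := by ring
  have h1 : (S / 2) ^ 2 ≤ s ^ 2 := pow_le_pow_left₀ (by positivity) hs 2
  have h2 : 0 ≤ s' ^ 2 + s * s' + s ^ 2 + A * v ^ 2 := by
    have : 0 ≤ s * s' := mul_nonneg hs0.le (by linarith)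
    nlinarith [sq_nonneg s', sq_nonneg S]
  have h3 := mul_nonneg (sub_nonneg.2 hss) h2
  linarith

include hR hA hB hV hS in
lemma F4 {s v v' : ℝ} (hv0 : V ≤ v) (hvv : v ≤ v') (hv : v' ≤ 3 * V) (hs : S / 2 ≤ s) :
    FR A B s v ≤ FR A B s v' := by
  have hv00 : 0 ≤ v := by linarith
  have hv00' : 0 ≤ v' := by linarith
  have hS0 : 0 < S := by rw [hS]; positivity
  have hs0 : 0 < s := by linarith
  have hV3 : 0 ≤ 3 * V := by linarith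
  unfold FR
  have e : v' * (s ^ 3 + A * s * v' ^ 2 + B * v' ^ 3) - v * (s ^ 3 + A * s * v ^ 2 + B * v ^ 3) =
      (v' - v) * (s ^ 3 + s * (A * (v ^ 2 + v * v' + v' ^ 2)) +
        B * (v' ^ 3 + v' ^ 2 * v + v' * v ^ 2 + v ^ 3)) := by ring
  have q1 : v ^ 2 + v * v' + v' ^ 2 ≤ 3 * (3 * V) ^ 2 := by nlinarith
  have q2 : v' ^ 3 + v' ^ 2 * v + v' * v ^ 2 + v ^ 3 ≤ 4 * (3 * V) ^ 3 := by
    have r1 : v' ^ 3 ≤ (3 * V) ^ 3 := pow_le_pow_left₀ hv00' hv 3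
    have r2 : v' ^ 2 * v ≤ (3 * V) ^ 3 := by
      calc v' ^ 2 * v ≤ (3 * V) ^ 2 * (3 * V) :=
            mul_le_mul (pow_le_pow_left₀ hv00' hv 2) (by linarith) hv00 (by positivity)
        _ = _ := by ring
    have r3 : v' * v ^ 2 ≤ (3 * V) ^ 3 := by
      calc v' * v ^ 2 ≤ (3 * V) * (3 * V) ^ 2 :=
            mul_le_mul hv (pow_le_pow_left₀ hv00 (by linarith) 2) (by positivity) (by positivity)
        _ = _ := by ring
    have r4 : v ^ 3 ≤ (3 * V) ^ 3 := pow_le_pow_left₀ hv00 (by linarith) 3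
    linarith
  have q1' : 0 ≤ v ^ 2 + v * v' + v' ^ 2 := by positivity
  have q2' : 0 ≤ v' ^ 3 + v' ^ 2 * v + v' * v ^ 2 + v ^ 3 := by positivity
  have a1 : -(3 * (S ^ 2 / 400)) ≤ A * (v ^ 2 + v * v' + v' ^ 2) := by
    have h : |A * (v ^ 2 + v * v' + v' ^ 2)| ≤ 3 * (S ^ 2 / 400) := by
      rw [abs_mul, abs_of_nonneg q1']
      calc |A| * (v ^ 2 + v * v' + v' ^ 2) ≤ (R ^ 2 / 100) * (3 * (3 * V) ^ 2) :=
            mul_le_mul (by linarith) q1 q1' (by positivity)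
        _ = 3 * (S ^ 2 / 400) := by rw [hS]; ring
    exact (abs_le.1 h).1
  have b1 : -(4 * (S ^ 3 / 800)) ≤ B * (v' ^ 3 + v' ^ 2 * v + v' * v ^ 2 + v ^ 3) := by
    have h : |B * (v' ^ 3 + v' ^ 2 * v + v' * v ^ 2 + v ^ 3)| ≤ 4 * (S ^ 3 / 800) := by
      rw [abs_mul, abs_of_nonneg q2']
      calc |B| * (v' ^ 3 + v' ^ 2 * v + v' * v ^ 2 + v ^ 3) ≤ (R ^ 3 / 100) * (4 * (3 * V) ^ 3) :=
            mul_le_mul (by linarith) q2 q2' (by positivity)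
        _ = 4 * (S ^ 3 / 800) := by rw [hS]; ring
    exact (abs_le.1 h).1
  have a2 : s * (-(3 * (S ^ 2 / 400))) ≤ s * (A * (v ^ 2 + v * v' + v' ^ 2)) :=
    mul_le_mul_of_nonneg_left a1 hs0.le
  have h1 : (S / 2) ^ 2 ≤ s ^ 2 := pow_le_pow_left₀ (by positivity) hs 2
  have h2 : (S / 2) ^ 3 ≤ s ^ 3 := pow_le_pow_left₀ (by positivity) hs 3
  have h3 : s * (S / 2) ^ 2 ≤ s * s ^ 2 := mul_le_mul_of_nonneg_left h1 hs0.le
  have h4 : 0 ≤ s ^ 3 + s * (A * (v ^ 2 + v * v' + v' ^ 2)) +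
        B * (v' ^ 3 + v' ^ 2 * v + v' * v ^ 2 + v ^ 3) := by
    have hsS : 0 < s * S ^ 2 := by positivity
    have hS3 : 0 < S ^ 3 := by positivity
    nlinarith
  have h5 := mul_nonneg (sub_nonneg.2 hvv) h4
  linarith

include hR hA hV hS in
lemma F5 {s s' v : ℝ} (hv0 : V ≤ v) (hv : v ≤ 3 * V) (hs' : 0 ≤ s') (hss : s' ≤ s)
    (hs : s ≤ 2 * S) : FR A B s v ≤ FR A B s' v + 40 * V * S ^ 2 * (s - s') := by
  have hv00 : 0 ≤ v := by linarith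
  have hS0 : 0 < S := by rw [hS]; positivity
  obtain ⟨a1, a2⟩ := abs_le.1 (bA hR hA hV hS hv00 hv)
  unfold FR
  have e : v * (s ^ 3 + A * s * v ^ 2 + B * v ^ 3) - v * (s' ^ 3 + A * s' * v ^ 2 + B * v ^ 3) =
      v * ((s - s') * (s ^ 2 + s * s' + s' ^ 2 + A * v ^ 2)) := by ring
  have h1 : s ^ 2 + s * s' + s' ^ 2 + A * v ^ 2 ≤ 13 * S ^ 2 := by
    have r1 : s ^ 2 ≤ (2 * S) ^ 2 := pow_le_pow_left₀ (by linarith) hs 2
    have r2 : s * s' ≤ (2 * S) * (2 * S) :=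
      mul_le_mul hs (by linarith) hs' (by positivity)
    have r3 : s' ^ 2 ≤ (2 * S) ^ 2 := pow_le_pow_left₀ hs' (by linarith) 2
    nlinarith [sq_nonneg S]
  have h2 : (s - s') * (s ^ 2 + s * s' + s' ^ 2 + A * v ^ 2) ≤ (s - s') * (13 * S ^ 2) :=
    mul_le_mul_of_nonneg_left h1 (sub_nonneg.2 hss)
  have h3 : v * ((s - s') * (s ^ 2 + s * s' + s' ^ 2 + A * v ^ 2)) ≤
      v * ((s - s') * (13 * S ^ 2)) := mul_le_mul_of_nonneg_left h2 hv00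
  have h4 : v * ((s - s') * (13 * S ^ 2)) ≤ (3 * V) * ((s - s') * (13 * S ^ 2)) :=
    mul_le_mul_of_nonneg_right hv (mul_nonneg (sub_nonneg.2 hss) (by positivity))
  have h5 : 0 ≤ V * S ^ 2 * (s - s') := mul_nonneg (by positivity) (sub_nonneg.2 hss)
  have h6 : (3 * V) * ((s - s') * (13 * S ^ 2)) = 39 * (V * S ^ 2 * (s - s')) := by ring
  have h7 : 40 * V * S ^ 2 * (s - s') = 40 * (V * S ^ 2 * (s - s')) := by ring
  linarith

end

/-- the choice of `n` -/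
lemma choose_n {c : ℝ} (hc : 0 < c) {N : ℕ} (hN : 240 ≤ N) {X : ℝ}
    (hX : c * ((N : ℝ) + 1) ^ 120 ≤ X) :
    ∃ n : ℕ, N ≤ n ∧ c * (n : ℝ) ^ 120 ≤ X ∧ X ≤ 2 * (c * (n : ℝ) ^ 120) := by
  have hX0 : 0 < X := lt_of_lt_of_le (by positivity) hX
  have hXc : 0 < X / c := by positivity
  set r : ℝ := (X / c) ^ ((1 : ℝ) / 120) with hr
  have hr0 : 0 < r := Real.rpow_pos_of_pos hXc _
  have hr120 : r ^ 120 = X / c := by
    rw [hr, ← Real.rpow_natCast, ← Real.rpow_mul hXc.le]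
    norm_num
  have hrN : (N : ℝ) + 1 ≤ r := by
    apply le_of_pow_le_pow_left₀ (n := 120) (by norm_num) hr0.le
    rw [hr120, le_div_iff₀ hc]
    linarith
  refine ⟨⌊r⌋₊, ?_, ?_, ?_⟩
  · apply Nat.le_floor
    linarith
  · have h1 : (⌊r⌋₊ : ℝ) ^ 120 ≤ X / c := by
      rw [← hr120]
      exact pow_le_pow_left₀ (Nat.cast_nonneg _) (Nat.floor_le hr0.le) 120
    rw [le_div_iff₀ hc] at h1
    linarith
  · have h1 := Nat.lt_floor_add_one r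
    set n : ℕ := ⌊r⌋₊ with hn
    have hnN : (N : ℝ) < (n : ℝ) + 1 := by linarith
    have hN' : (240 : ℝ) ≤ N := by exact_mod_cast hN
    have h2 : X / c ≤ ((n : ℝ) + 1) ^ 120 := by
      rw [← hr120]
      exact pow_le_pow_left₀ hr0.le h1.le 120
    have hp : (0 : ℝ) < (n : ℝ) + 1 := by linarith
    have h3 : (1 : ℝ) + (120 : ℕ) * (-(1 / ((n : ℝ) + 1))) ≤ (1 + -(1 / ((n : ℝ) + 1))) ^ 120 := by
      apply one_add_mul_le_pow
      have : 1 / ((n : ℝ) + 1) ≤ 1 := by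
        rw [div_le_one hp]; linarith
      linarith
    have h4 : (1 : ℝ) / 2 ≤ 1 + (120 : ℕ) * (-(1 / ((n : ℝ) + 1))) := by
      have : 1 / ((n : ℝ) + 1) ≤ 1 / 240 := one_div_le_one_div_of_le (by norm_num) (by linarith)
      push_cast
      linarith
    have h5 : (1 : ℝ) + -(1 / ((n : ℝ) + 1)) = n / (n + 1) := by
      field_simp
      ring
    rw [h5] at h3
    have h6 : (1 : ℝ) / 2 ≤ ((n : ℝ) / (n + 1)) ^ 120 := h4.trans h3
    rw [div_pow, le_div_iff₀ (by positivity)] at h6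
    rw [div_le_iff₀ hc] at h2
    have h7 : ((n : ℝ) + 1) ^ 120 * c ≤ 2 * (n : ℝ) ^ 120 * c :=
      mul_le_mul_of_nonneg_right (by linarith) hc.le
    linarith

end Pool.Agent.TH827.GE
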